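import Pool.Agent.Run7.h324.SR.Lower
import Pool.Agent.R562.WFZ
import Pool.Agent.N452.TF.Xor
import Pool.Agent.Y649.DG.ThreeSum

set_option autoImplicit false

/-! # 3SUM and circuits with shared numbers -/

namespace Pool.Agent.Run7.h324.SR.Sums

open Finset Pool.Agent.TH697.Row Pool.Agent.TH697.Form.ThreeSum
open Pool.Agent.TH697.Form (IsProb)
open Pool.Agent.N452.TF.Xor (pairs)
open Pool.Agent.TH457.Ary.ThreeSum
open Pool.Agent.TH457.Ary.ZeroSum (zeroSum)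
open Pool.Agent.Run7.h324.SR

variable {n c w v b : ℕ}

theorem card_pairs : (pairs n).card = n := by
  unfold pairs
  rw [card_map, card_univ, Fintype.card_fin]

/-- the arithmetic for real numbers -/
theorem arith_real {n g c w L l s : ℝ} (hn : 0 < n) (hg : 8 ≤ g) (hc : 1 ≤ c) (hw : 1 ≤ w)
    (hl0 : 0 < l) (hl : l ≤ 9 / 8 * g) (hL : L ≤ 4 / 3 * c * g) (hs : 0 ≤ s)
    (h : n * (n * g * (1 / 7)) ≤ 3000 * (9 * Real.sqrt (n * g * (1 / 7)) +
      (2 + 10 * (5 * l) + 2 * (w - 1) * L)) * s) :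
    n ^ 2 ≤ 1200000 * (Real.sqrt (n / l) + c * w) * s := by
  -- `√(n g / 7) ≤ g √(n / l) * (11 / 25)`
  have h1 : Real.sqrt (n * g * (1 / 7)) ≤ 11 / 25 * g * Real.sqrt (n / l) := by
    have e1 : 11 / 25 * g * Real.sqrt (n / l) = Real.sqrt ((11 / 25 * g) ^ 2 * (n / l)) := by
      rw [Real.sqrt_mul (by positivity), Real.sqrt_sq (by linarith)]
    rw [e1]
    apply Real.sqrt_le_sqrt
    rw [show (11 / 25 * g) ^ 2 * (n / l) = (11 / 25 * g) ^ 2 * n / l by ring, le_div_iff₀ hl0]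
    have h2 : n * g * (1 / 7) * l ≤ n * g * (1 / 7) * (9 / 8 * g) :=
      mul_le_mul_of_nonneg_left hl (by positivity)
    have h3 : n * g * (1 / 7) * (9 / 8 * g) ≤ (11 / 25 * g) ^ 2 * n := by nlinarith [sq_nonneg g, mul_pos hn (by positivity : (0:ℝ) < g ^ 2)]
    linarith
  have h2 : 2 + 10 * (5 * l) + 2 * (w - 1) * L ≤ 57 * (c * w * g) := by
    have h3 : (w - 1) * L ≤ (w - 1) * (4 / 3 * c * g) := mul_le_mul_of_nonneg_left hL (by linarith)
    have h4 : 2 + 10 * (5 * l) ≤ 57 * g := by linarith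
    have h5 : g ≤ c * g := by nlinarith
    have h6 : 0 ≤ (w - 1) * (c * g) := by
      apply mul_nonneg (by linarith)
      positivity
    nlinarith
  have h3 : n * (n * g * (1 / 7)) ≤ 3000 * (9 * (11 / 25 * g * Real.sqrt (n / l)) +
      57 * (c * w * g)) * s := by
    refine h.trans ?_
    apply mul_le_mul_of_nonneg_right _ hs
    linarith
  have hr : 0 ≤ Real.sqrt (n / l) := Real.sqrt_nonneg _
  have h4 : g * n ^ 2 ≤ g * (21000 * (4 * Real.sqrt (n / l) + 57 * (c * w)) * s) := by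
    have e1 : n * (n * g * (1 / 7)) = g * n ^ 2 / 7 := by ring
    have e2 : 3000 * (9 * (11 / 25 * g * Real.sqrt (n / l)) + 57 * (c * w * g)) * s =
        g * (21000 * (99 / 25 * Real.sqrt (n / l) + 57 * (c * w)) * s) / 7 := by ring
    rw [e1, e2] at h3
    have h5 : g * (21000 * (99 / 25 * Real.sqrt (n / l) + 57 * (c * w)) * s) ≤
        g * (21000 * (4 * Real.sqrt (n / l) + 57 * (c * w)) * s) := by
      apply mul_le_mul_of_nonneg_left _ (by linarith)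
      apply mul_le_mul_of_nonneg_right _ hs
      nlinarith
    linarith
  have h5 := le_of_mul_le_mul_left h4 (by linarith)
  refine h5.trans ?_
  apply mul_le_mul_of_nonneg_right _ hs
  have : 0 ≤ c * w := by positivity
  nlinarith

theorem real_glue {D : Option (Fin n) → Type} (hn : 400 ≤ n) (hc : 1 ≤ c) (hw : 1 ≤ w)
    {Ω : Type} [Fintype Ω] (μ : Ω → ℝ) (hμ : IsProb μ) (P : (∀ i, D i) → Prop)
    (f : (∀ i, D i) → Bool)
    (hask : ∀ b : ℕ, 2 * (b * 2 ^ b) ≤ n → ∀ i : Fin n,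
      Pool.Agent.Y638.RF.Asks (Fin (n / 2) × Fin b) (n ^ 2) 0 P f (some i)) (s : ℕ)
    (C : Ω → Circuit (Option (Fin n)) D w ((2 * n) ^ c))
    (hs : ∀ ω, (C ω).circ.cost (pairs n) ≤ s)
    (hF : ApproximatesOn μ (fun ω => (C ω).accepts) P f) :
    (n : ℝ) ^ 2 ≤ 1200000 * (Real.sqrt (n / Real.logb 2 n) + c * w) * s := by
  classical
  have hw' : (1 : ℝ) ≤ w := by exact_mod_cast hw
  have hc' : (1 : ℝ) ≤ c := by exact_mod_cast hc
  have hs0 : (0 : ℝ) ≤ s := Nat.cast_nonneg s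
  have hn' : (400 : ℝ) ≤ n := by exact_mod_cast hn
  by_cases hsn : n ^ 2 ≤ s
  · have h1 : (n : ℝ) ^ 2 ≤ s := by exact_mod_cast hsn
    have h2 : (0 : ℝ) ≤ Real.sqrt (n / Real.logb 2 n) := Real.sqrt_nonneg _
    have h3 : (1 : ℝ) ≤ c * w := by nlinarith
    have h4 : (1 : ℝ) ≤ 1200000 * (Real.sqrt (n / Real.logb 2 n) + c * w) := by linarith
    nlinarith
  obtain ⟨b, hb, hL, hb2⟩ := params hn
  have hg : (8 : ℝ) ≤ Nat.log 2 n := by exact_mod_cast hL
  have h5 : n ^ 5 = n ^ 2 * n ^ 3 := by ring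
  have h23 : n ^ 2 ≤ n ^ 3 := Nat.pow_le_pow_right (by omega) (by norm_num)
  have h3 : 400 * n ^ 2 ≤ n ^ 3 := by
    calc 400 * n ^ 2 ≤ n * n ^ 2 := Nat.mul_le_mul_right _ hn
      _ = n ^ 3 := by ring
  have h35 : n ^ 3 ≤ n ^ 5 := Nat.pow_le_pow_right (by omega) (by norm_num)
  have h21 : 1 ≤ n ^ 2 := Nat.one_le_pow _ _ (by omega)
  have h := real_bound (T := Fin (n / 2) × Fin b) μ hμ C P f hF (pairs n) s hs
    (Nat.one_le_pow _ _ (by omega)) hw (n ^ 2) (n ^ 5) (by omega) (by omega) 0 (by norm_num)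
    (by
      intro a ha
      unfold pairs at ha
      rw [mem_map] at ha
      obtain ⟨i, -, rfl⟩ := ha
      exact hask b hb i) ((n : ℝ) * (Nat.log 2 n : ℕ) * (1 / 7)) (by nlinarith) (by
      have := card_T (n := n) hn hb2
      linarith)
  rw [card_pairs, Nat.cast_pow n 5, Real.logb_pow] at h
  push_cast at h
  refine arith_real (l := Real.logb 2 n) (L := Real.logb 2 (((2 * n) ^ c : ℕ) : ℝ))
    (g := Nat.log 2 n) (by linarith) hg hc' hw' (Real.logb_pos (by norm_num) (by linarith)) ?_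
    (logb_q (by omega) hL) hs0 ?_
  · have h1 := logb_n (n := n) (by omega)
    linarith
  · push_cast
    exact h

theorem int_glue {D : Option (Fin n) → Type} (hn : 400 ≤ n) (hc : 1 ≤ c) (hw : 1 ≤ w)
    (hv : 1 ≤ v) {Ω : Type} [Fintype Ω] (μ : Ω → ℝ) (hμ : IsProb μ) (P : (∀ i, D i) → Prop)
    (f : (∀ i, D i) → Bool)
    (hask : ∀ b : ℕ, 2 * (b * 2 ^ b) ≤ n → ∀ i : Fin n,
      Pool.Agent.Y638.WF.Asks (Fin (n / 2) × Fin b) 0 P f (some i)) (s : ℕ)
    (C : Ω → Circuit (Option (Fin n)) D w ((2 * n) ^ c))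
    (hs : ∀ ω, (C ω).circ.cost (pairs n) ≤ s)
    (hC : ∀ ω x, P x → (C ω).circ.All (IsInt ((2 * n) ^ v)) x)
    (hF : ApproximatesOn μ (fun ω => (C ω).accepts) P f) :
    (n : ℝ) ^ 2 ≤ 400000 * (v + c * w) * s := by
  classical
  have hw' : (1 : ℝ) ≤ w := by exact_mod_cast hw
  have hc' : (1 : ℝ) ≤ c := by exact_mod_cast hc
  have hv' : (1 : ℝ) ≤ v := by exact_mod_cast hv
  have hs0 : (0 : ℝ) ≤ s := Nat.cast_nonneg s
  have hn' : (400 : ℝ) ≤ n := by exact_mod_cast hn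
  by_cases hsn : n ^ 2 ≤ s
  · have h1 : (n : ℝ) ^ 2 ≤ s := by exact_mod_cast hsn
    have h3 : (1 : ℝ) ≤ c * w := by nlinarith
    have h4 : (1 : ℝ) ≤ 400000 * (v + c * w) := by linarith
    nlinarith
  obtain ⟨b, hb, hL, hb2⟩ := params hn
  have hg : (8 : ℝ) ≤ Nat.log 2 n := by exact_mod_cast hL
  obtain ⟨g, hgd⟩ : ∃ g : ℝ, g = (Nat.log 2 n : ℕ) := ⟨_, rfl⟩
  have h := int_bound (T := Fin (n / 2) × Fin b) μ hμ C P f hF (pairs n) s hs
    (Nat.one_le_pow _ _ (by omega)) hw ((2 * n) ^ v) (Nat.one_le_pow _ _ (by omega)) hC 0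
    (by norm_num)
    (by
      intro a ha
      unfold pairs at ha
      rw [mem_map] at ha
      obtain ⟨i, -, rfl⟩ := ha
      exact hask b hb i) ((n : ℝ) * (Nat.log 2 n : ℕ) * (1 / 7)) (by nlinarith) (by
      have := card_T (n := n) hn hb2
      linarith)
  rw [card_pairs] at h
  have h1 := Pool.Agent.Y638.WF.ThreeSum.logb_small (n := n) (v := v) (by omega) hL
  have h2 := logb_q (n := n) (c := c) (by omega) hL
  have h3 := logb_n (n := n) (by omega)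
  have h4 : Real.logb 2 ((s : ℝ) + 1) ≤ 2 * Real.logb 2 n := by
    have h5 : ((s : ℝ) + 1) ≤ (n : ℝ) ^ 2 := by exact_mod_cast (by omega : s + 1 ≤ n ^ 2)
    refine (Real.logb_le_logb_of_le (by norm_num : (1 : ℝ) < 2) (by positivity) h5).trans ?_
    rw [Real.logb_pow]
    norm_num
  rw [← hgd] at h h1 h2 h3 hg
  have h5 : 8 * Real.logb 2 (2 * (((2 * n) ^ v : ℕ) : ℝ) + 1) + 2 * Real.logb 2 ((s : ℝ) + 1) +
      2 * ((w : ℝ) - 1) * Real.logb 2 (((2 * n) ^ c : ℕ) : ℝ) ≤ 19 * g * (v + c * w) := by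
    have h6 : ((w : ℝ) - 1) * Real.logb 2 (((2 * n) ^ c : ℕ) : ℝ) ≤
        ((w : ℝ) - 1) * (4 / 3 * c * g) := mul_le_mul_of_nonneg_left h2 (by linarith)
    have h7 : g ≤ v * g := by nlinarith
    have h8 : g ≤ c * g := by nlinarith
    have h9 : 0 ≤ ((w : ℝ) - 1) * (c * g) := by
      apply mul_nonneg (by linarith)
      nlinarith
    nlinarith
  have h6 : 3000 * (8 * Real.logb 2 (2 * (((2 * n) ^ v : ℕ) : ℝ) + 1) +
      2 * Real.logb 2 ((s : ℝ) + 1) +
      2 * ((w : ℝ) - 1) * Real.logb 2 (((2 * n) ^ c : ℕ) : ℝ)) * s ≤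
      3000 * (19 * g * (v + c * w)) * s :=
    mul_le_mul_of_nonneg_right (mul_le_mul_of_nonneg_left h5 (by norm_num)) hs0
  have h7 : g * (n : ℝ) ^ 2 ≤ g * (399000 * (v + c * w) * s) := by
    have e1 : (n : ℝ) * (n * g * (1 / 7)) = g * n ^ 2 / 7 := by ring
    rw [e1] at h
    have e2 : 3000 * (19 * g * (v + c * w)) * s = g * (399000 * (v + c * w) * s) / 7 := by ring
    rw [e2] at h6
    linarith
  have h8 := le_of_mul_le_mul_left h7 (by linarith)
  have h9 : (0 : ℝ) ≤ (v + c * w) * s := by positivity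
  linarith

end Pool.Agent.Run7.h324.SR.Sums
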