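import Pool.Agent.Run7.h324.SR.Defs
import Pool.Agent.Y638.RF.Core

set_option autoImplicit false

/-! # A calculus for the counting of subfunctions of formulas which read shared numbers -/

namespace Pool.Agent.Run7.h324.SR

open Finset
open Pool.Agent.Y638.RF (Word Un)

variable {ι : Type} {D : ι → Type} [DecidableEq ι] {w q m : ℕ}

namespace Fml

open Classical in
/-- The number of leaves which see the item `i` or a shared number in the set `S`. -/
noncomputable def reads (i : ι) (S : Fin m → Prop) : Fml ι D w q m → ℕ
  | const _ => 0
  | item j _ => if j = i then 1 else 0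
  | word τ => if ∃ k, τ.item k = i then 1 else 0
  | val k => if S k then 1 else 0
  | add F G => F.reads i S + G.reads i S
  | mul F G => F.reads i S + G.reads i S
  | pos F => F.reads i S
  | sym _ _ F => ∑ j, (F j).reads i S

theorem sees_iff (i : ι) (S : Fin m → Prop) (F : Fml ι D w q m) :
    F.Sees i S ↔ F.reads i S ≠ 0 := by
  induction F with
  | const c => simp [Sees, reads]
  | item j f => simp [Sees, reads]
  | word τ => simp [Sees, reads]
  | val k => simp [Sees, reads]
  | add F G ihF ihG =>
    simp only [Sees, reads, ihF, ihG]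
    omega
  | mul F G ihF ihG =>
    simp only [Sees, reads, ihF, ihG]
    omega
  | pos F ih => simpa only [Sees, reads] using ih
  | sym k H F ih =>
    simp only [Sees, reads, ih]
    rw [ne_eq, sum_eq_zero_iff]
    push Not
    simp

theorem eval_eq (i : ι) (S : Fin m → Prop) (F : Fml ι D w q m) (h : F.reads i S = 0)
    (z : ∀ i, D i) (d : D i) (r r' : Fin m → ℝ) (hr : ∀ k, ¬ S k → r k = r' k) :
    F.eval (Function.update z i d) r = F.eval z r' := by
  induction F with
  | const c => rfl
  | item j f =>
    have hj : j ≠ i := by
      intro hj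
      simp [reads, hj] at h
    simp only [eval]
    rw [Function.update_of_ne hj]
  | word τ =>
    have hτ : ¬ ∃ k, τ.item k = i := by
      intro hτ
      simp only [reads] at h
      rw [if_pos hτ] at h
      exact one_ne_zero h
    simp only [eval]
    rw [τ.update_of_not i hτ]
  | val k =>
    have hk : ¬ S k := by
      intro hk
      simp [reads, hk] at h
    simp only [eval]
    exact hr k hk
  | add F G ihF ihG =>
    simp only [reads] at h
    simp only [eval]
    rw [ihF (by omega), ihG (by omega)]
  | mul F G ihF ihG =>
    simp only [reads] at h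
    simp only [eval]
    rw [ihF (by omega), ihG (by omega)]
  | pos F ih =>
    simp only [reads] at h
    simp only [eval]
    rw [ih h]
  | sym k H F ih =>
    simp only [reads] at h
    simp only [eval]
    have h1 : ∀ j, (F j).eval (Function.update z i d) r = (F j).eval z r' := fun j =>
      ih j (by
        have := (sum_eq_zero_iff (s := univ) (f := fun j => (F j).reads i S)).1 h
        exact this j (mem_univ j))
    simp only [h1]

open Classical in
theorem sum_reads_le (I : Finset ι) (S : ι → Fin m → Prop) (c : Fin m → ℕ)
    (hc : ∀ k, (I.filter (fun i => S i k)).card ≤ c k) (F : Fml ι D w q m) :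
    ∑ i ∈ I, F.reads i (S i) ≤ F.cost I c := by
  induction F with
  | const c => simp [reads]
  | item j f =>
    simp only [reads, cost]
    rw [Finset.sum_ite_eq]
    split_ifs <;> simp
  | word τ =>
    simp only [reads, cost]
    refine (sum_le_sum (g := fun i => ∑ k, if τ.item k = i then 1 else 0) ?_).trans ?_
    · intro i _
      split_ifs with h
      · obtain ⟨k, hk⟩ := h
        refine le_trans (by rw [if_pos hk]) (single_le_sum
          (f := fun k => if τ.item k = i then 1 else 0) (fun _ _ => Nat.zero_le _) (mem_univ k))
      · exact Nat.zero_le _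
    · rw [sum_comm]
      refine sum_le_sum fun k _ => ?_
      rw [sum_ite_eq]
      split_ifs <;> simp
  | val k =>
    simp only [reads, cost]
    rw [← card_filter]
    exact hc k
  | add F G ihF ihG =>
    simp only [reads, cost, sum_add_distrib]
    omega
  | mul F G ihF ihG =>
    simp only [reads, cost, sum_add_distrib]
    omega
  | pos F ih => exact ih
  | sym k H F ih =>
    simp only [reads, cost]
    rw [sum_comm]
    exact (sum_le_sum fun j _ => ih j).trans (Nat.le_add_left _ _)

omit [DecidableEq ι] in
theorem All.self {Q : ℝ → Prop} (h0 : Q 0) (h1 : Q 1) {x : ∀ i, D i} {r : Fin m → ℝ}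
    {F : Fml ι D w q m} (h : F.All Q x r) : Q (F.eval x r) := by
  cases F with
  | const c => exact h
  | item j f => exact h
  | word τ => exact h
  | val k => exact h
  | add F G => exact h.2.2
  | mul F G => exact h.2.2
  | pos F =>
    simp only [eval]
    split_ifs
    · exact h1
    · exact h0
  | sym k H F => exact h.2

end Fml

/-- one more column -/
def ext {Z Y X : Type} (G : Z → Y → X → ℝ) (g : Z → Y → ℝ) : Z → Y → Option X → ℝ :=
  fun z v x => x.elim (g z v) (G z v)

open Classical in
/-- new columns, and their costs -/
inductive Base {Z Y X : Type} (s q' : ℕ) (G : Z → Y → X → ℝ) : (Z → Y → ℝ) → ℕ → Prop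
  | leaf (κ : Type) [Fintype κ] (f : κ → Y → ℝ) (k : Z → κ) (h : Fintype.card κ ≤ q') :
      Base s q' G (fun z v => f (k z) v) 1
  | val (x : X) : Base s q' G (fun z v => G z v x) 1
  | add (x x' : X) : Base s q' G (fun z v => G z v x + G z v x') 1
  | mul (x x' : X) : Base s q' G (fun z v => G z v x * G z v x') 1
  | sym (A : Type) [Fintype A] (e : A → X) (h : ℕ → ℝ) (off : Z → ℕ) (cnt : Z → Y → ℕ)
      (hA : 2 ≤ Fintype.card A) (hoff : ∀ z, off z ≤ s)
      (hcnt : ∀ z v, cnt z v = (univ.filter (fun a => 0 < G z v (e a))).card) :
      Base s q' G (fun z v => h (off z + cnt z v)) (Fintype.card A - 1)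

/-- A measure for the number of the families of functions. -/
structure Calc (Z Y : Type) (s q' : ℕ) (Q : ℝ → Prop) where
  C : (X : Type) → (Z → Y → X → ℝ) → ℕ → Prop
  zero : Q 0
  one : Q 1
  mono : ∀ (X : Type) (G : Z → Y → X → ℝ) (n n' : ℕ), n ≤ n' → C X G n → C X G n'
  reindex : ∀ (X X' : Type) (f : X' → X) (G : Z → Y → X → ℝ) (n : ℕ), C X G n →
    C X' (fun z v x => G z v (f x)) n
  zcol : ∀ (X : Type) (G : Z → Y → X → ℝ) (n : ℕ), C X G n →
    C (Option X) (ext G (fun _ _ => 0)) n
  step : ∀ (X : Type) (G : Z → Y → X → ℝ) (n : ℕ), C X G n → ∀ (g : Z → Y → ℝ) (c : ℕ),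
    Base s q' G g c → (∀ z v, Q (g z v)) → ∀ U : Z → ℝ → ℝ, (∀ z, Un (U z)) →
    (∀ z v, Q (U z (g z v))) → C (Option X) (ext G (fun z v => U z (g z v))) (n + c)

theorem card_filter_split {k : ℕ} (p : Fin k → Prop) (p' : Fin k → Prop) [DecidablePred p]
    [DecidablePred p'] :
    (univ.filter p).card = (univ.filter (fun j => ¬ p' j ∧ p j)).card +
      (univ.filter (fun j => p' j ∧ p j)).card := by
  rw [← card_union_of_disjoint]
  · congr 1
    ext j
    simp only [mem_filter, mem_univ, true_and, mem_union]
    tauto
  · rw [disjoint_filter]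
    rintro j - ⟨h1, -⟩ ⟨h2, -⟩
    exact h1 h2

open Classical in
theorem Fml.cover {Z Y : Type} {s : ℕ} {Q : ℝ → Prop} (K : Calc Z Y s (q ^ (w - 1)) Q)
    (hq : 1 ≤ q) (pt : Z → ∀ i, D i) (i : ι) (y : Y → D i) (V : Z → Y → Fin m → ℝ)
    (V0 : Z → Fin m → ℝ) (S : Fin m → Prop) (hV : ∀ z v k, ¬ S k → V z v k = V0 z k)
    (I : Finset ι) (c : Fin m → ℕ) (F : Fml ι D w q m) (hs : F.cost I c ≤ s)
    (hr : 1 ≤ F.reads i S)
    (hQ : ∀ z v, F.All Q (Function.update (pt z) i (y v)) (V z v)) :
    ∀ (X : Type) (G : Z → Y → X → ℝ) (e : Fin m → X)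
      (_ : ∀ z v k, S k → G z v (e k) = V z v k) (n : ℕ), K.C X G n →
      ∀ U : Z → ℝ → ℝ, (∀ z, Un (U z)) →
      (∀ z v, Q (U z (F.eval (Function.update (pt z) i (y v)) (V z v)))) →
      K.C (Option X) (ext G (fun z v =>
        U z (F.eval (Function.update (pt z) i (y v)) (V z v)))) (n + (2 * F.reads i S - 1)) := by
  have dead : ∀ F : Fml ι D w q m, F.reads i S = 0 → ∀ z v,
      F.eval (Function.update (pt z) i (y v)) (V z v) = F.eval (pt z) (V0 z) :=
    fun F h z v => F.eval_eq i S h _ _ _ _ (hV z v)
  -- binary gates
  have binary : ∀ (F₁ F₂ H : Fml ι D w q m) (op : ℝ → ℝ → ℝ),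
      (∀ x r, H.eval x r = op (F₁.eval x r) (F₂.eval x r)) →
      H.reads i S = F₁.reads i S + F₂.reads i S → 1 ≤ H.reads i S →
      (∀ z v, H.All Q (Function.update (pt z) i (y v)) (V z v)) →
      (∀ z v, F₁.All Q (Function.update (pt z) i (y v)) (V z v)) →
      (∀ z v, F₂.All Q (Function.update (pt z) i (y v)) (V z v)) →
      (∀ c u, Un u → Un (fun t => u (op t c))) →
      (∀ c u, Un u → Un (fun t => u (op c t))) →
      (∀ (X : Type) (G : Z → Y → X → ℝ) (x x' : X),
        Base s (q ^ (w - 1)) G (fun z v => op (G z v x) (G z v x')) 1) →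
      (1 ≤ F₁.reads i S → ∀ (X : Type) (G : Z → Y → X → ℝ) (e : Fin m → X)
        (_ : ∀ z v k, S k → G z v (e k) = V z v k) (n : ℕ), K.C X G n →
        ∀ U : Z → ℝ → ℝ, (∀ z, Un (U z)) →
        (∀ z v, Q (U z (F₁.eval (Function.update (pt z) i (y v)) (V z v)))) →
        K.C (Option X) (ext G (fun z v =>
          U z (F₁.eval (Function.update (pt z) i (y v)) (V z v)))) (n + (2 * F₁.reads i S - 1))) →
      (1 ≤ F₂.reads i S → ∀ (X : Type) (G : Z → Y → X → ℝ) (e : Fin m → X)
        (_ : ∀ z v k, S k → G z v (e k) = V z v k) (n : ℕ), K.C X G n →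
        ∀ U : Z → ℝ → ℝ, (∀ z, Un (U z)) →
        (∀ z v, Q (U z (F₂.eval (Function.update (pt z) i (y v)) (V z v)))) →
        K.C (Option X) (ext G (fun z v =>
          U z (F₂.eval (Function.update (pt z) i (y v)) (V z v)))) (n + (2 * F₂.reads i S - 1))) →
      ∀ (X : Type) (G : Z → Y → X → ℝ) (e : Fin m → X)
        (_ : ∀ z v k, S k → G z v (e k) = V z v k) (n : ℕ), K.C X G n →
        ∀ U : Z → ℝ → ℝ, (∀ z, Un (U z)) →
        (∀ z v, Q (U z (H.eval (Function.update (pt z) i (y v)) (V z v)))) →
        K.C (Option X) (ext G (fun z v =>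
          U z (H.eval (Function.update (pt z) i (y v)) (V z v)))) (n + (2 * H.reads i S - 1)) := by
    intro F₁ F₂ H op he hrd hpos hQH hQ1 hQ2 hu1 hu2 hb ih1 ih2 X G e hG n hn U hU hQU
    rw [hrd] at hpos ⊢
    simp only [he] at hQU ⊢
    by_cases h1 : F₁.reads i S = 0
    · have d1 := dead F₁ h1
      simp only [d1] at hQU ⊢
      rw [h1, zero_add]
      exact ih2 (by omega) X G e hG n hn (fun z t => U z (op (F₁.eval (pt z) (V0 z)) t))
        (fun z => hu2 _ _ (hU z)) hQU
    by_cases h2 : F₂.reads i S = 0
    · have d2 := dead F₂ h2
      simp only [d2] at hQU ⊢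
      rw [h2, add_zero]
      exact ih1 (by omega) X G e hG n hn (fun z t => U z (op t (F₂.eval (pt z) (V0 z))))
        (fun z => hu1 _ _ (hU z)) hQU
    have c1 := ih1 (by omega) X G e hG n hn (fun _ => id) (fun _ => Un.id)
      (fun z v => (hQ1 z v).self K.zero K.one)
    have c2 := ih2 (by omega) (Option X) _ (fun k => some (e k))
      (fun z v k hk => hG z v k hk) _ c1 (fun _ => id) (fun _ => Un.id)
      (fun z v => (hQ2 z v).self K.zero K.one)
    have c3 := K.step _ _ _ c2 _ _ (hb _ _ (some none) none) (fun z v => by
      have := (hQH z v).self K.zero K.one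
      rw [he] at this
      exact this) U hU (fun z v => hQU z v)
    have c4 := K.reindex _ (Option X) (fun x => x.elim none (fun x => some (some (some x)))) _ _ c3
    have e1 : n + (2 * F₁.reads i S - 1) + (2 * F₂.reads i S - 1) + 1 =
        n + (2 * (F₁.reads i S + F₂.reads i S) - 1) := by omega
    rw [e1] at c4
    convert c4 using 1
    funext z v x
    cases x <;> rfl
  induction F with
  | const c => simp [reads] at hr
  | item j f =>
    intro X G e hG n hn U hU hQU
    have hj : j = i := by
      by_contra hj
      simp [reads, hj] at hr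
    subst hj
    have e1 : ∀ z v, (Fml.item j f : Fml ι D w q m).eval (Function.update (pt z) j (y v)) (V z v) =
        f (y v) := by
      intro z v
      simp [eval]
    have e2 : 2 * (Fml.item j f : Fml ι D w q m).reads j S - 1 = 1 := by simp [reads]
    simp only [e1] at hQU ⊢
    rw [e2]
    exact K.step X G n hn _ _ (Base.leaf Unit (fun _ v => f (y v)) (fun _ => ())
      (by simpa using Nat.one_le_pow _ _ hq)) (fun z v => by
        have := (hQ z v).self K.zero K.one
        rw [e1] at this
        exact this) U hU hQU
  | word τ =>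
    intro X G e hG n hn U hU hQU
    have hτ : ∃ k, τ.item k = i := by
      by_contra hτ
      simp only [reads] at hr
      rw [if_neg hτ] at hr
      omega
    obtain ⟨κ, _, f, hκ, hf⟩ := τ.family i y hτ
    choose k hk using fun z => hf (pt z)
    have e1 : ∀ z v, (Fml.word τ : Fml ι D w q m).eval (Function.update (pt z) i (y v)) (V z v) =
        f (k z) v := by
      intro z v
      rw [hk z]
      rfl
    have e2 : 2 * (Fml.word τ : Fml ι D w q m).reads i S - 1 = 1 := by
      simp only [reads]
      rw [if_pos hτ]
    simp only [e1] at hQU ⊢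
    rw [e2]
    exact K.step X G n hn _ _ (Base.leaf κ f k hκ) (fun z v => by
        have := (hQ z v).self K.zero K.one
        rw [e1] at this
        exact this) U hU hQU
  | val k =>
    intro X G e hG n hn U hU hQU
    have hk : S k := by
      by_contra hk
      simp [reads, hk] at hr
    have e1 : ∀ z v, (Fml.val k : Fml ι D w q m).eval (Function.update (pt z) i (y v)) (V z v) =
        G z v (e k) := by
      intro z v
      rw [hG z v k hk]
      rfl
    have e2 : 2 * (Fml.val k : Fml ι D w q m).reads i S - 1 = 1 := by simp [reads, hk]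
    simp only [e1] at hQU ⊢
    rw [e2]
    exact K.step X G n hn _ _ (Base.val (e k)) (fun z v => by
        have := (hQ z v).self K.zero K.one
        rw [e1] at this
        exact this) U hU hQU
  | add F₁ F₂ ih1 ih2 =>
    simp only [cost] at hs
    refine binary F₁ F₂ (add F₁ F₂) (fun a b => a + b) (fun _ _ => rfl) rfl hr hQ
      (fun z v => (hQ z v).1) (fun z v => (hQ z v).2.1) (fun c u hu => hu.comp_add c) ?_
      (fun _ _ x x' => Base.add x x')
      (fun h => ih1 (by omega) h fun z v => (hQ z v).1)
      (fun h => ih2 (by omega) h fun z v => (hQ z v).2.1)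
    intro c u hu
    have := hu.comp_add c
    simpa only [add_comm] using this
  | mul F₁ F₂ ih1 ih2 =>
    simp only [cost] at hs
    refine binary F₁ F₂ (mul F₁ F₂) (fun a b => a * b) (fun _ _ => rfl) rfl hr hQ
      (fun z v => (hQ z v).1) (fun z v => (hQ z v).2.1) (fun c u hu => hu.comp_mul c) ?_
      (fun _ _ x x' => Base.mul x x')
      (fun h => ih1 (by omega) h fun z v => (hQ z v).1)
      (fun h => ih2 (by omega) h fun z v => (hQ z v).2.1)
    intro c u hu
    have := hu.comp_mul c
    simpa only [mul_comm] using this
  | pos F ih =>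
    intro X G e hG n hn U hU hQU
    simp only [cost] at hs
    simp only [reads] at hr ⊢
    have h1 := ih hs hr (fun z v => hQ z v) X G e hG n hn
      (fun z t => U z (if decide (0 < t) = true then 1 else 0))
      (fun z => Un.bool (fun b => U z (if b = true then 1 else 0)))
    simp only [decide_eq_true_eq] at h1
    exact h1 hQU
  | sym k H F ih =>
    intro X G e hG n hn U hU hQU
    simp only [cost] at hs
    simp only [reads] at hr ⊢
    have hsj : ∀ j, (F j).cost I c ≤ ∑ j, (F j).cost I c := fun j =>
      single_le_sum (f := fun j => (F j).cost I c) (fun _ _ => Nat.zero_le _) (mem_univ j)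
    have hQj : ∀ j, ∀ z v, (F j).All Q (Function.update (pt z) i (y v)) (V z v) :=
      fun j z v => (hQ z v).1 j
    -- the live children
    obtain ⟨L, hL⟩ : ∃ L : Finset (Fin k), L = univ.filter (fun j => (F j).reads i S ≠ 0) :=
      ⟨_, rfl⟩
    have hmem : ∀ j, j ∈ L ↔ (F j).reads i S ≠ 0 := by
      intro j
      rw [hL, mem_filter]
      simp
    obtain ⟨off, hoff⟩ : ∃ off : Z → ℕ, ∀ z, off z =
        (univ.filter (fun j => ¬ (j ∈ L) ∧ 0 < (F j).eval (pt z) (V0 z))).card := ⟨_, fun _ => rfl⟩
    have hoffs : ∀ z, off z ≤ s := by
      intro z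
      rw [hoff]
      refine (card_filter_le _ _).trans ?_
      rw [card_univ, Fintype.card_fin]
      omega
    have hval : ∀ z v, (Fml.sym k H F).eval (Function.update (pt z) i (y v)) (V z v) =
        H (off z + (univ.filter (fun j => j ∈ L ∧
          0 < (F j).eval (Function.update (pt z) i (y v)) (V z v))).card) := by
      intro z v
      simp only [eval]
      rw [card_filter_split _ (fun j => j ∈ L), hoff]
      have h5 : univ.filter (fun j => ¬ (j ∈ L) ∧
          0 < (F j).eval (Function.update (pt z) i (y v)) (V z v)) =
          univ.filter (fun j => ¬ (j ∈ L) ∧ 0 < (F j).eval (pt z) (V0 z)) := by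
        apply filter_congr
        intro j _
        constructor
        · rintro ⟨h1, h2⟩
          refine ⟨h1, ?_⟩
          rw [hmem] at h1
          push Not at h1
          rwa [dead (F j) h1] at h2
        · rintro ⟨h1, h2⟩
          refine ⟨h1, ?_⟩
          rw [hmem] at h1
          push Not at h1
          rwa [dead (F j) h1]
      rw [h5]
    simp only [hval] at hQU ⊢
    have hsumL : ∑ j, (F j).reads i S = ∑ j ∈ L, (F j).reads i S := by
      rw [hL, sum_filter_ne_zero]
    rw [hsumL] at hr ⊢
    have hLne : L.Nonempty := by
      rw [nonempty_iff_ne_empty]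
      rintro rfl
      simp at hr
    by_cases hone : L.card = 1
    · -- one live child
      obtain ⟨j0, hj0⟩ := card_eq_one.1 hone
      have e0 : ∀ z v, (univ.filter (fun j => j ∈ L ∧
          0 < (F j).eval (Function.update (pt z) i (y v)) (V z v))).card =
          if decide (0 < (F j0).eval (Function.update (pt z) i (y v)) (V z v)) = true then 1
            else 0 := by
        intro z v
        rw [hj0]
        by_cases h5 : 0 < (F j0).eval (Function.update (pt z) i (y v)) (V z v)
        · rw [if_pos (by simpa using h5)]
          have : univ.filter (fun j => j ∈ ({j0} : Finset (Fin k)) ∧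
              0 < (F j).eval (Function.update (pt z) i (y v)) (V z v)) = {j0} := by
            ext j
            rw [mem_filter, mem_singleton]
            constructor
            · rintro ⟨-, h6, -⟩
              exact h6
            · rintro rfl
              exact ⟨mem_univ _, rfl, h5⟩
          rw [this, card_singleton]
        · rw [if_neg (by simpa using h5)]
          have : univ.filter (fun j => j ∈ ({j0} : Finset (Fin k)) ∧
              0 < (F j).eval (Function.update (pt z) i (y v)) (V z v)) = ∅ := by
            ext j
            rw [mem_filter, mem_singleton]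
            constructor
            · rintro ⟨-, rfl, h6⟩
              exact absurd h6 h5
            · intro h6
              exact absurd h6 (notMem_empty _)
          rw [this, card_empty]
      simp only [e0] at hQU ⊢
      rw [hj0, sum_singleton]
      have hj1 : (F j0).reads i S ≠ 0 := (hmem j0).1 (by rw [hj0]; simp)
      exact ih j0 (by have := hsj j0; omega) (by omega) (hQj j0) X G e hG n hn
        (fun z t => U z (H (off z + if decide (0 < t) = true then 1 else 0)))
        (fun z => Un.bool (fun b => U z (H (off z + if b = true then 1 else 0)))) hQU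
    · have h2 : 2 ≤ L.card := by
        have := card_pos.2 hLne
        omega
      -- the columns of the live children
      have key : ∀ L' : Finset (Fin k), L' ⊆ L →
          K.C (X ⊕ Fin k) (fun z v x => Sum.elim (G z v) (fun j => if j ∈ L' then
            (F j).eval (Function.update (pt z) i (y v)) (V z v) else 0) x)
            (n + ∑ j ∈ L', (2 * (F j).reads i S - 1)) := by
        intro L'
        induction L' using Finset.induction_on with
        | empty =>
          intro _
          have h3 := K.reindex _ (X ⊕ Fin k) (Sum.elim some (fun _ => none)) _ _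
            (K.zcol X G n hn)
          simp only [sum_empty, add_zero]
          convert h3 using 1
          funext z v x
          cases x <;> simp [ext]
        | insert j L' hj ihL =>
          intro hsub
          have h3 := ihL (fun a ha => hsub (mem_insert_of_mem ha))
          have hjL : (F j).reads i S ≠ 0 := (hmem j).1 (hsub (mem_insert_self _ _))
          have h4 := ih j (by have := hsj j; omega) (by omega) (hQj j) _ _
            (fun a => Sum.inl (e a)) (fun z v a ha => hG z v a ha) _ h3 (fun _ => id)
            (fun _ => Un.id) (fun z v => (hQj j z v).self K.zero K.one)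
          have h5 := K.reindex _ (X ⊕ Fin k) (Sum.elim (fun x => some (Sum.inl x))
            (fun a => if a = j then none else some (Sum.inr a))) _ _ h4
          rw [sum_insert hj]
          have e1 : n + ∑ j ∈ L', (2 * (F j).reads i S - 1) + (2 * (F j).reads i S - 1) =
              n + (2 * (F j).reads i S - 1 + ∑ j ∈ L', (2 * (F j).reads i S - 1)) := by omega
          rw [e1] at h5
          convert h5 using 1
          funext z v x
          rcases x with x | a
          · rfl
          · by_cases ha : a = j
            · subst ha
              simp [ext]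
            · simp [ext, ha]
      have h3 := key L (Subset.refl _)
      have h5 := K.step _ _ _ h3 _ _ (Base.sym {j // j ∈ L} (fun j => Sum.inr j.1) H off
        (fun z v => (univ.filter (fun j => j ∈ L ∧
          0 < (F j).eval (Function.update (pt z) i (y v)) (V z v))).card)
        (by rw [Fintype.card_coe]; exact h2) hoffs (by
          intro z v
          rw [← card_map (Function.Embedding.subtype _)]
          congr 1
          ext j
          simp only [mem_map, mem_filter, mem_univ, true_and, Function.Embedding.subtype_apply,
            Sum.elim_inr]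
          constructor
          · rintro ⟨h6, h7⟩
            exact ⟨⟨j, h6⟩, by rw [if_pos h6]; exact h7, rfl⟩
          · rintro ⟨a, h6, rfl⟩
            rw [if_pos a.2] at h6
            exact ⟨a.2, h6⟩))
        (fun z v => by
          have := (hQ z v).self K.zero K.one
          rw [hval] at this
          exact this) U hU hQU
      have h6 := K.reindex _ (Option X) (fun x => x.elim none (fun x => some (Sum.inl x))) _ _ h5
      refine K.mono _ _ (n + ∑ j ∈ L, (2 * (F j).reads i S - 1) +
        (Fintype.card {j // j ∈ L} - 1)) _ ?_ ?_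
      · rw [Fintype.card_coe]
        have e6 : ∑ j ∈ L, (2 * (F j).reads i S - 1) + L.card = 2 * ∑ j ∈ L, (F j).reads i S := by
          rw [card_eq_sum_ones, ← sum_add_distrib, mul_sum]
          refine sum_congr rfl fun j hj => ?_
          have := (hmem j).1 hj
          omega
        omega
      · convert h6 using 1
        funext z v x
        cases x <;> rfl

end Pool.Agent.Run7.h324.SR
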