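import Pool.Agent.Run7.h324.SR.Calc

set_option autoImplicit false

/-! # The subfunctions of circuits with shared numbers -/

namespace Pool.Agent.Run7.h324.SR

open Finset
open Pool.Agent.Y638.RF (Word Un)

variable {ι : Type} {D : ι → Type} [DecidableEq ι] {w q : ℕ}

namespace Circ

/-- The number of leaves which see the item `i` or a shared number which depends on it. -/
noncomputable def reads (i : ι) : {m : ℕ} → Circ ι D w q m → ℕ
  | _, nil => 0
  | _, snoc C F => C.reads i + F.reads i (C.Dep i)

theorem sum_reads_le (I : Finset ι) : ∀ {m : ℕ} (C : Circ ι D w q m),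
    ∑ i ∈ I, C.reads i ≤ C.cost I
  | _, nil => by simp [reads]
  | _, snoc C F => by
      have h1 := sum_reads_le I C
      have h2 := F.sum_reads_le I (fun i => C.Dep i) (C.price I) (fun k => by
        unfold price
        exact le_of_eq (by congr))
      simp only [reads, cost, sum_add_distrib]
      omega

theorem val_eq (i : ι) (z : ∀ i, D i) (d : D i) : ∀ {m : ℕ} (C : Circ ι D w q m) (k : Fin m),
    ¬ C.Dep i k → C.val (Function.update z i d) k = C.val z k
  | _, nil, k, _ => k.elim0
  | _, snoc C F, k, hk => by
      have h1 := val_eq i z d C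
      revert hk
      refine Fin.lastCases ?_ (fun k => ?_) k
      · intro hk
        simp only [Dep, Fin.snoc_last] at hk
        simp only [val, Fin.snoc_last]
        refine F.eval_eq i (C.Dep i) ?_ z d _ _ (fun k hk => h1 k hk)
        by_contra h2
        exact hk ((F.sees_iff i _).2 h2)
      · intro hk
        simp only [Dep, Fin.snoc_castSucc] at hk
        simp only [val, Fin.snoc_castSucc]
        exact h1 k hk

open Classical in
theorem cover {Z Y : Type} {s : ℕ} {Q : ℝ → Prop} (K : Calc Z Y s (q ^ (w - 1)) Q)
    (hq : 1 ≤ q) (pt : Z → ∀ i, D i) (i : ι) (y : Y → D i) (I : Finset ι)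
    (h0 : ∀ G : Z → Y → Fin 0 → ℝ, K.C (Fin 0) G 0) : ∀ {m : ℕ} (C : Circ ι D w q m),
    C.cost I ≤ s → (∀ z v, C.All Q (Function.update (pt z) i (y v))) →
    K.C (Fin m) (fun z v k => if C.Dep i k then C.val (Function.update (pt z) i (y v)) k else 0)
      (2 * C.reads i)
  | _, nil, _, _ => by
      simp only [reads, mul_zero]
      exact h0 _
  | _, snoc (m := m) C F, hs, hQ => by
      simp only [cost] at hs
      have h1 := cover K hq pt i y I h0 C (by omega) (fun z v => (hQ z v).1)
      by_cases hF : F.reads i (C.Dep i) = 0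
      · have h2 := K.zcol _ _ _ h1
        have h3 := K.reindex _ (Fin (m + 1)) (fun k => Fin.lastCases (motive := fun _ =>
          Option (Fin m)) none (fun k => some k) k) _ _ h2
        have e1 : 2 * (snoc C F).reads i = 2 * C.reads i := by simp [reads, hF]
        rw [e1]
        convert h3 using 1
        funext z v k
        refine Fin.lastCases ?_ (fun k => ?_) k
        · have : ¬ F.Sees i (C.Dep i) := fun h => ((F.sees_iff i _).1 h) hF
          simp [Dep, ext, this]
        · simp [Dep, ext, val]
      · have h2 := F.cover K hq pt i y (fun z v => C.val (Function.update (pt z) i (y v)))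
          (fun z => C.val (pt z)) (C.Dep i) (fun z v k hk => C.val_eq i _ _ k hk) I (C.price I)
          (by omega) (by omega) (fun z v => (hQ z v).2) (Fin m) _ id
          (fun z v k hk => by simp [hk]) _ h1 (fun _ => id) (fun _ => Un.id)
          (fun z v => ((hQ z v).2).self K.zero K.one)
        have h3 := K.reindex _ (Fin (m + 1)) (fun k => Fin.lastCases (motive := fun _ =>
          Option (Fin m)) none (fun k => some k) k) _ _ h2
        refine K.mono _ _ (2 * C.reads i + (2 * F.reads i (C.Dep i) - 1)) _ ?_ ?_
        · simp only [reads]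
          omega
        · convert h3 using 1
          funext z v k
          refine Fin.lastCases ?_ (fun k => ?_) k
          · have : F.Sees i (C.Dep i) := (F.sees_iff i _).2 hF
            simp [Dep, ext, val, this]
          · simp [Dep, ext, val]

end Circ

open Classical in
/-- Few subfunctions. -/
theorem Circuit.subfunctions {Z Y : Type} {s : ℕ} {Q : ℝ → Prop}
    (K : Calc Z Y s (q ^ (w - 1)) Q)
    (hq : 1 ≤ q) (pt : Z → ∀ i, D i) (i : ι) (y : Y → D i) (I : Finset ι)
    (h0 : ∀ G : Z → Y → Fin 0 → ℝ, K.C (Fin 0) G 0) (N : ℕ → ℕ) (hN : ∀ n, 1 ≤ N n)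
    (hcount : ∀ (X : Type) (G : Z → Y → X → ℝ) (n : ℕ) (x : X), K.C X G n →
      ∃ S : Finset (Y → Bool), S.card ≤ N n ∧ ∀ z, (fun v => decide (0 < G z v x)) ∈ S)
    (C : Circuit ι D w q) (hs : C.circ.cost I ≤ s)
    (hQ : ∀ z v, C.circ.All Q (Function.update (pt z) i (y v))) :
    ∃ S : Finset (Y → Bool), S.card ≤ 2 * N (2 * C.circ.reads i) ∧
      ∀ z, (fun v => C.accepts (Function.update (pt z) i (y v))) ∈ S := by
  have h1 := C.circ.cover K hq pt i y I h0 hs hQ
  by_cases hd : C.circ.Dep i (Fin.last _)
  · obtain ⟨S, hS, hS'⟩ := hcount _ _ _ (Fin.last _) h1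
    refine ⟨S, by omega, fun z => ?_⟩
    have h2 := hS' z
    simp only [hd, if_true] at h2
    exact h2
  · refine ⟨{fun _ => true, fun _ => false}, ?_, fun z => ?_⟩
    · refine (card_insert_le _ _).trans ?_
      rw [card_singleton]
      have := hN (2 * C.circ.reads i)
      omega
    · have h2 : (fun v => C.accepts (Function.update (pt z) i (y v))) =
          fun _ => C.accepts (pt z) := by
        funext v
        unfold Circuit.accepts
        rw [C.circ.val_eq i _ _ _ hd]
      rw [h2]
      cases C.accepts (pt z) <;> simp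

end Pool.Agent.Run7.h324.SR
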