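import Pool.Agent.Y638.RF.Defs

set_option autoImplicit false

/-! # Circuits in which real numbers are shared

A circuit is a sequence of real formulas; each formula computes a real number, which may be read by
all later formulas. A reading of a shared number costs the number of the items on which it depends. -/

namespace Pool.Agent.Run7.h324.SR

open Finset
open Pool.Agent.Y638.RF (Word)

/-- Formulas which may read `m` shared real numbers: constants, arbitrary real functions of one item,
arbitrary real functions of `w` words, shared numbers `val`, sums, products, the sign test `pos` (is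
the value positive? `1` or `0`), and gates `sym` of any fan-in `k` whose value is an arbitrary real
function of the number of the inputs which are positive. -/
inductive Fml (ι : Type) (D : ι → Type) (w q m : ℕ) : Type
  | const : ℝ → Fml ι D w q m
  | item : (i : ι) → (D i → ℝ) → Fml ι D w q m
  | word : Word ι D w q → Fml ι D w q m
  | val : Fin m → Fml ι D w q m
  | add : Fml ι D w q m → Fml ι D w q m → Fml ι D w q m
  | mul : Fml ι D w q m → Fml ι D w q m → Fml ι D w q m
  | pos : Fml ι D w q m → Fml ι D w q m
  | sym : (k : ℕ) → (ℕ → ℝ) → (Fin k → Fml ι D w q m) → Fml ι D w q m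

namespace Fml

variable {ι : Type} {D : ι → Type} {w q m : ℕ}

/-- The value of the formula for the input `x`, if the shared numbers are `r`. -/
noncomputable def eval : Fml ι D w q m → (∀ i, D i) → (Fin m → ℝ) → ℝ
  | const c, _, _ => c
  | item i f, x, _ => f (x i)
  | word τ, x, _ => τ.out (fun k => τ.view k (x (τ.item k)))
  | val k, _, r => r k
  | add F G, x, r => F.eval x r + G.eval x r
  | mul F G, x, r => F.eval x r * G.eval x r
  | pos F, x, r => if 0 < F.eval x r then 1 else 0
  | sym _ h F, x, r => h (univ.filter (fun j => 0 < (F j).eval x r)).card

/-- Does some leaf see the item `i` or a shared number in the set `S`? -/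
def Sees (i : ι) (S : Fin m → Prop) : Fml ι D w q m → Prop
  | const _ => False
  | item j _ => j = i
  | word τ => ∃ k, τ.item k = i
  | val k => S k
  | add F G => F.Sees i S ∨ G.Sees i S
  | mul F G => F.Sees i S ∨ G.Sees i S
  | pos F => F.Sees i S
  | sym _ _ F => ∃ j, (F j).Sees i S

open Classical in
/-- The cost of the readings, if the items in `I` have the price `1`, the other items are free, and
the shared numbers have the prices `c`; the wires which lead to gates `sym` are counted, too. -/
noncomputable def cost (I : Finset ι) (c : Fin m → ℕ) : Fml ι D w q m → ℕ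
  | const _ => 0
  | item j _ => if j ∈ I then 1 else 0
  | word τ => ∑ k, if τ.item k ∈ I then 1 else 0
  | val k => c k
  | add F G => F.cost I c + G.cost I c
  | mul F G => F.cost I c + G.cost I c
  | pos F => F.cost I c
  | sym k _ F => k + ∑ j, (F j).cost I c

end Fml

/-- Circuits with `m` shared real numbers. -/
inductive Circ (ι : Type) (D : ι → Type) (w q : ℕ) : ℕ → Type
  | nil : Circ ι D w q 0
  | snoc : {m : ℕ} → Circ ι D w q m → Fml ι D w q m → Circ ι D w q (m + 1)

namespace Circ

variable {ι : Type} {D : ι → Type} {w q : ℕ}

/-- The shared numbers for the input `x`. -/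
noncomputable def val : {m : ℕ} → Circ ι D w q m → (∀ i, D i) → Fin m → ℝ
  | _, nil, _ => fun j => j.elim0
  | _, snoc C F, x => Fin.snoc (α := fun _ => ℝ) (C.val x) (F.eval x (C.val x))

/-- The shared numbers which depend on the item `i`: their formulas see the item, or an earlier
shared number which depends on it. -/
def Dep (i : ι) : {m : ℕ} → Circ ι D w q m → Fin m → Prop
  | _, nil => fun j => j.elim0
  | _, snoc C F => Fin.snoc (α := fun _ => Prop) (C.Dep i) (F.Sees i (C.Dep i))

open Classical in
/-- The price of a shared number: the number of the items in `I` on which it depends. -/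
noncomputable def price (I : Finset ι) {m : ℕ} (C : Circ ι D w q m) (k : Fin m) : ℕ :=
  (I.filter (fun i => C.Dep i k)).card

/-- The cost: the sum of the prices of all items and shared numbers which are read by leaves, plus
the number of the wires which lead to gates `sym`. -/
noncomputable def cost (I : Finset ι) : {m : ℕ} → Circ ι D w q m → ℕ
  | _, nil => 0
  | _, snoc C F => C.cost I + F.cost I (C.price I)

end Circ

/-- A circuit whose last number is the output. -/
structure Circuit (ι : Type) (D : ι → Type) (w q : ℕ) where
  /-- number of shared numbers before the output -/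
  shared : ℕ
  circ : Circ ι D w q (shared + 1)

/-- The circuit accepts if the output is positive. -/
noncomputable def Circuit.accepts {ι : Type} {D : ι → Type} {w q : ℕ} (C : Circuit ι D w q)
    (x : ∀ i, D i) : Bool :=
  decide (0 < C.circ.val x (Fin.last _))

/-- The value is an integer of absolute value at most `V`. -/
def IsInt (V : ℕ) (r : ℝ) : Prop := ∃ z : ℤ, r = z ∧ |z| ≤ V

/-- The values of the formula and of all its subformulas for the input `x` and the shared numbers `r`
have the property `Q`. -/
def Fml.All {ι : Type} {D : ι → Type} {w q m : ℕ} (Q : ℝ → Prop) (x : ∀ i, D i) (r : Fin m → ℝ) :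
    Fml ι D w q m → Prop
  | const c => Q ((const c : Fml ι D w q m).eval x r)
  | item i f => Q ((item i f : Fml ι D w q m).eval x r)
  | word τ => Q ((word τ : Fml ι D w q m).eval x r)
  | val k => Q ((val k : Fml ι D w q m).eval x r)
  | add F G => F.All Q x r ∧ G.All Q x r ∧ Q ((add F G).eval x r)
  | mul F G => F.All Q x r ∧ G.All Q x r ∧ Q ((mul F G).eval x r)
  | pos F => F.All Q x r
  | sym k h F => (∀ j, (F j).All Q x r) ∧ Q ((sym k h F).eval x r)

/-- The values of all formulas of the circuit, and of all their subformulas, have the property `Q`. -/
def Circ.All {ι : Type} {D : ι → Type} {w q : ℕ} (Q : ℝ → Prop) (x : ∀ i, D i) :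
    {m : ℕ} → Circ ι D w q m → Prop
  | _, nil => True
  | _, snoc C F => C.All Q x ∧ F.All Q x (C.val x)

end Pool.Agent.Run7.h324.SR
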