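import Pool.Agent.Run7.h324.SR.Pack

set_option autoImplicit false

/-! # Circuits for products `u_iᵀ M v_i` -/

namespace Pool.Agent.Run7.h324.SR

open Finset
open Pool.Agent.N452.TF.Xor (pairs)

variable {n a l w q : ℕ}

/-- an entry of the matrix as a number (zero outside the matrix) -/
def ent (M : Fin n → Fin n → Bool) (j : Fin n) (k : ℕ) : ℕ :=
  if h : k < n then (if M j ⟨k, h⟩ = true then 1 else 0) else 0

/-- the number of the `j` with `u_j = M_jk = 1` -/
def cnt (u : Fin n → Bool) (M : Fin n → Fin n → Bool) (k : ℕ) : ℕ :=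
  ∑ j, if u j = true then ent M j k else 0

theorem ent_le (M : Fin n → Fin n → Bool) (j : Fin n) (k : ℕ) : ent M j k ≤ 1 := by
  unfold ent
  split_ifs <;> simp

theorem cnt_le (u : Fin n → Bool) (M : Fin n → Fin n → Bool) (k : ℕ) : cnt u M k ≤ n := by
  unfold cnt
  refine (sum_le_card_nsmul _ _ 1 fun j _ => ?_).trans (by simp)
  have := ent_le M j k
  split_ifs <;> omega

theorem cnt_eq (u : Fin n → Bool) (M : Fin n → Fin n → Bool) (k : Fin n) :
    cnt u M k = (univ.filter (fun j => u j = true ∧ M j k = true)).card := by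
  unfold cnt ent
  rw [card_filter]
  refine sum_congr rfl fun j _ => ?_
  simp only [k.2, dite_true, Fin.eta]
  split_ifs <;> simp_all

theorem circuit_general {D : Option (Fin n) → Type}
    (U V : (i : Fin n) → D (some i) → Fin n → Bool) (M : D none → Fin n → Fin n → Bool)
    (σ : ℕ → Bool) (h : ℕ → Bool) (ha : 1 ≤ a) (hl1 : 1 ≤ l) (hl : n < 2 ^ l) :
    ∃ C : Circuit (Option (Fin n)) D w q,
      C.circ.cost (pairs n) ≤ n * (n / a + 1) * (n + 5 * (a * l)) + n ∧
      (∀ x, C.circ.All (IsInt (2 ^ (a * l))) x) ∧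
      ∀ x, C.accepts x = decide (∃ i, h (univ.filter (fun p : Fin n × Fin l =>
        V i (x (some i)) p.1 = true ∧ σ p.2 = true ∧
          (cnt (U i (x (some i))) (M (x none)) p.1).testBit p.2 = true)).card = true) := by
  classical
  have hal : 1 ≤ a * l := Nat.mul_pos ha hl1
  obtain ⟨r, hr⟩ : ∃ r : Fin n → Fin (n / a + 1) → D none → ℕ, r = fun j β Y =>
      pack l a (fun κ => ent (M Y) j (β.val * a + κ)) := ⟨_, rfl⟩
  have hrho : ∀ x (p : Fin n × Fin (n / a + 1)), rho (fun i j d => U i d j) r x p =
      pack l a (fun κ => cnt (U p.1 (x (some p.1))) (M (x none)) (p.2.val * a + κ)) := by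
    intro x p
    unfold rho
    rw [hr]
    simp only
    exact pack_sum (fun j => U p.1 (x (some p.1)) j = true)
      (fun j κ => ent (M (x none)) j (p.2.val * a + κ))
  have hcl : ∀ u (Mt : Fin n → Fin n → Bool) k, cnt u Mt k < 2 ^ l := fun u Mt k =>
    lt_of_le_of_lt (cnt_le u Mt k) hl
  have h1l : 1 < 2 ^ l := Nat.one_lt_two_pow (by omega)
  obtain ⟨C, h1, h2, h3⟩ := exists_circuit (w := w) (q := q) (L := a * l)
    (fun i j d => U i d j) r (fun x p => by
      rw [hrho]
      exact pack_lt (fun κ => hcl _ _ _)) (fun j β Y => by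
      rw [hr]
      exact (pack_lt (fun κ => lt_of_le_of_lt (ent_le _ _ _) h1l)).le) hal
    (fun i β e d => if hk : β.val * a + e.val / l < n then
      (V i d ⟨β.val * a + e.val / l, hk⟩ && σ (e.val % l)) else false) h
  refine ⟨C, h1, h2, fun x => ?_⟩
  rw [h3, decide_eq_decide]
  have hcard : ∀ i : Fin n, (univ.filter (fun p : Fin (n / a + 1) × Fin (a * l) =>
      (if hk : p.1.val * a + p.2.val / l < n then
      (V i (x (some i)) ⟨p.1.val * a + p.2.val / l, hk⟩ && σ (p.2.val % l)) else false) = true ∧
      (rho (fun i j d => U i d j) r x (i, p.1)).testBit p.2 = true)).card =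
      (univ.filter (fun p : Fin n × Fin l =>
        V i (x (some i)) p.1 = true ∧ σ p.2 = true ∧
          (cnt (U i (x (some i))) (M (x none)) p.1).testBit p.2 = true)).card := by
    intro i
    have hdiv : ∀ e : Fin (a * l), e.val / l < a := fun e => by
      rw [Nat.div_lt_iff_lt_mul (by omega)]
      exact e.2
    have hmod : ∀ e : ℕ, e % l < l := fun e => Nat.mod_lt _ (by omega)
    have htb : ∀ p : Fin (n / a + 1) × Fin (a * l),
        (rho (fun i j d => U i d j) r x (i, p.1)).testBit p.2 =
        (cnt (U i (x (some i))) (M (x none)) (p.1.val * a + p.2.val / l)).testBit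
          (p.2.val % l) := by
      intro p
      rw [hrho]
      have e1 := testBit_pack (l := l) (a := a)
        (c := fun κ => cnt (U i (x (some i))) (M (x none)) (p.1.val * a + κ))
        (fun κ => hcl _ _ _) (hdiv p.2) (hmod p.2.val)
      rw [Nat.div_add_mod'] at e1
      exact e1
    have hlt : ∀ p ∈ univ.filter (fun p : Fin (n / a + 1) × Fin (a * l) =>
      (if hk : p.1.val * a + p.2.val / l < n then
      (V i (x (some i)) ⟨p.1.val * a + p.2.val / l, hk⟩ && σ (p.2.val % l)) else false) = true ∧
      (rho (fun i j d => U i d j) r x (i, p.1)).testBit p.2 = true),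
        p.1.val * a + p.2.val / l < n := by
      intro p hp
      rw [mem_filter] at hp
      by_contra hk
      have := hp.2.1
      rw [dif_neg hk] at this
      exact absurd this (by simp)
    refine card_bij (fun p hp => (⟨p.1.val * a + p.2.val / l, hlt p hp⟩,
      ⟨p.2.val % l, hmod _⟩)) ?_ ?_ ?_
    · intro p hp
      have hk := hlt p hp
      rw [mem_filter] at hp ⊢
      obtain ⟨-, h4, h5⟩ := hp
      rw [dif_pos hk, Bool.and_eq_true] at h4
      rw [htb] at h5
      exact ⟨mem_univ _, h4.1, h4.2, h5⟩
    · rintro ⟨β, e⟩ hp ⟨β', e'⟩ hp' heq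
      simp only [Prod.mk.injEq, Fin.mk.injEq] at heq
      obtain ⟨h4, h5⟩ := heq
      have d1 := hdiv e
      have d2 := hdiv e'
      have h6 : β.val = β'.val := by
        have e1 : (β.val * a + e.val / l) / a = β.val := by
          rw [mul_comm, Nat.mul_add_div (by omega), Nat.div_eq_of_lt d1, add_zero]
        have e2 : (β'.val * a + e'.val / l) / a = β'.val := by
          rw [mul_comm, Nat.mul_add_div (by omega), Nat.div_eq_of_lt d2, add_zero]
        rw [← e1, ← e2, h4]
      have h7 : e.val / l = e'.val / l := by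
        rw [h6] at h4
        omega
      have h8 : e.val = e'.val := by
        rw [← Nat.div_add_mod e.val l, ← Nat.div_add_mod e'.val l, h7, h5]
      rw [Prod.mk.injEq]
      exact ⟨Fin.ext h6, Fin.ext h8⟩
    · rintro ⟨k, e⟩ hp
      rw [mem_filter] at hp
      obtain ⟨-, h4, h5, h6⟩ := hp
      have hkm : k.val % a < a := Nat.mod_lt _ (by omega)
      have hlt1 : k.val / a < n / a + 1 := by
        have := Nat.div_le_div_right (c := a) k.2.le
        omega
      have hlt2 : k.val % a * l + e.val < a * l := by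
        calc k.val % a * l + e.val < k.val % a * l + l := by
              have := e.2
              omega
          _ = (k.val % a + 1) * l := by ring
          _ ≤ a * l := Nat.mul_le_mul_right _ hkm
      have e1 : (k.val % a * l + e.val) / l = k.val % a := by
        rw [mul_comm, Nat.mul_add_div (by omega), Nat.div_eq_of_lt e.2, add_zero]
      have e2 : (k.val % a * l + e.val) % l = e.val := by
        rw [mul_comm, Nat.mul_add_mod, Nat.mod_eq_of_lt e.2]
      have e3 : k.val / a * a + k.val % a = k.val := by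
        rw [mul_comm]
        exact Nat.div_add_mod _ _
      refine ⟨(⟨k.val / a, hlt1⟩, ⟨k.val % a * l + e.val, hlt2⟩), ?_, ?_⟩
      · rw [mem_filter]
        refine ⟨mem_univ _, ?_, ?_⟩
        · simp only [e1, e2, e3, k.2, dite_true, Fin.eta, Bool.and_eq_true]
          exact ⟨h4, h5⟩
        · rw [htb]
          simp only [e1, e2, e3]
          exact h6
      · simp only [e1, e2, e3, Fin.eta]
  constructor
  · rintro ⟨i, hi⟩
    exact ⟨i, by rw [← hcard i]; exact hi⟩
  · rintro ⟨i, hi⟩
    exact ⟨i, by rw [hcard i]; exact hi⟩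

end Pool.Agent.Run7.h324.SR
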