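import Pool.Agent.Run7.h324.SR.RealCov

set_option autoImplicit false

/-! # Families of functions with integral values -/

namespace Pool.Agent.Run7.h324.SR

open Finset
open Pool.Agent.Y638.RF (Word Un)

theorem IsInt.zero (V : ℕ) : IsInt V 0 := ⟨0, by simp, by simp⟩

theorem IsInt.one {V : ℕ} (h : 1 ≤ V) : IsInt V 1 := ⟨1, by simp, by simpa using h⟩

/-- thresholds on an interval of integers -/
theorem exists_threshold (V : ℕ) (c e : ℝ) : ∃ m : ℤ, -(V : ℤ) ≤ m ∧ m ≤ V + 1 ∧
    ((∀ x : ℤ, |x| ≤ V → (0 < c * x + e ↔ m ≤ x)) ∨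
      (∀ x : ℤ, |x| ≤ V → (0 < c * x + e ↔ ¬ m ≤ x))) := by
  have clampm : ∀ m0 : ℤ, ∃ m : ℤ, -(V : ℤ) ≤ m ∧ m ≤ V + 1 ∧ ∀ x : ℤ, |x| ≤ V →
      (m0 ≤ x ↔ m ≤ x) := by
    intro m0
    refine ⟨max (-(V : ℤ)) (min m0 (V + 1)), by omega, by omega, fun x hx => ?_⟩
    rw [abs_le] at hx
    omega
  rcases lt_trichotomy c 0 with hc | hc | hc
  · obtain ⟨m, h1, h2, h3⟩ := clampm ⌈-e / c⌉
    refine ⟨m, h1, h2, Or.inr fun x hx => ?_⟩
    rw [← h3 x hx, Int.ceil_le, not_le, lt_div_iff_of_neg hc]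
    constructor <;> intro h <;> linarith
  · subst hc
    by_cases he : 0 < e
    · refine ⟨-(V : ℤ), le_rfl, by omega, Or.inl fun x hx => ?_⟩
      rw [abs_le] at hx
      simp [he, hx.1]
    · refine ⟨-(V : ℤ), le_rfl, by omega, Or.inr fun x hx => ?_⟩
      rw [abs_le] at hx
      simp [he, hx.1]
  · obtain ⟨m, h1, h2, h3⟩ := clampm (⌊-e / c⌋ + 1)
    refine ⟨m, h1, h2, Or.inl fun x hx => ?_⟩
    rw [← h3 x hx, Int.add_one_le_iff, Int.floor_lt, div_lt_iff₀ hc]
    constructor <;> intro h <;> linarith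

open Classical in
/-- few compositions -/
theorem un_family {Y : Type} (V : ℕ) (hV : 1 ≤ V) (f : Y → ℝ) (hf : ∀ v, IsInt V (f v)) :
    ∃ S : Finset (Y → ℝ), S.card ≤ (2 * V + 1) ^ 4 ∧
      ∀ u, Un u → (∀ v, IsInt V (u (f v))) → (fun v => u (f v)) ∈ S := by
  choose g hg hgV using hf
  obtain ⟨R, hR⟩ : ∃ R : Finset ℤ, R = Icc (-(V : ℤ)) V := ⟨_, rfl⟩
  have hRc : R.card = 2 * V + 1 := by
    rw [hR, Int.card_Icc]
    omega
  have hR0 : (0 : ℤ) ∈ R := by
    rw [hR, mem_Icc]
    omega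
  have hRm : ∀ z : ℤ, |z| ≤ V → z ∈ R := by
    intro z hz
    rw [hR, mem_Icc]
    exact abs_le.1 hz
  refine ⟨(R ×ˢ R).image (fun p => fun v => if h : ∃ a : Y × Y, f a.1 ≠ f a.2 then
      (p.1 : ℝ) + (p.2 - p.1) * (f v - f h.choose.1) / (f h.choose.2 - f h.choose.1)
      else (p.1 : ℝ)) ∪
    ((R ×ˢ R) ×ˢ Icc (-(V : ℤ)) (V + 1)).image (fun p => fun v =>
      if (p.2 : ℝ) ≤ f v then (p.1.1 : ℝ) else p.1.2), ?_, ?_⟩
  · refine (card_union_le _ _).trans ?_
    refine (Nat.add_le_add card_image_le card_image_le).trans ?_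
    rw [card_product, card_product, card_product, hRc, Int.card_Icc]
    have e1 : ((V : ℤ) + 1 + 1 - -(V : ℤ)).toNat = 2 * V + 2 := by omega
    rw [e1]
    nlinarith [Nat.mul_le_mul hV hV, sq_nonneg (V : ℤ)]
  · intro u hu huV
    rw [mem_union]
    rcases hu with ⟨a, b, rfl⟩ | ⟨a, b, c, e, rfl⟩
    · left
      by_cases h : ∃ a : Y × Y, f a.1 ≠ f a.2
      · obtain ⟨m1, h1, h1'⟩ := huV h.choose.1
        obtain ⟨m2, h2, h2'⟩ := huV h.choose.2
        rw [mem_image]
        refine ⟨(m1, m2), mem_product.2 ⟨hRm _ h1', hRm _ h2'⟩, ?_⟩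
        funext v
        rw [dif_pos h]
        have hne := h.choose_spec
        have hne' : f h.choose.2 - f h.choose.1 ≠ 0 := sub_ne_zero.2 (Ne.symm hne)
        simp only at h1 h2 ⊢
        rw [← h1, ← h2]
        field_simp
        ring
      · push Not at h
        rw [mem_image]
        by_cases hY : Nonempty Y
        · obtain ⟨v0⟩ := hY
          obtain ⟨m1, h1, h1'⟩ := huV v0
          refine ⟨(m1, m1), mem_product.2 ⟨hRm _ h1', hRm _ h1'⟩, ?_⟩
          funext v
          rw [dif_neg (by push Not; exact h)]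
          simp only at h1 ⊢
          rw [← h1, h (v0, v)]
        · refine ⟨(0, 0), mem_product.2 ⟨hR0, hR0⟩, ?_⟩
          funext v
          exact absurd ⟨v⟩ hY
    · right
      have on : ∃ m ∈ R, ∀ v, 0 < c * f v + e → a * 1 + b = (m : ℤ) := by
        by_cases h : ∃ v, 0 < c * f v + e
        · obtain ⟨v, hv⟩ := h
          obtain ⟨m1, h1, h1'⟩ := huV v
          simp only [hv, if_true] at h1
          exact ⟨m1, hRm _ h1', fun _ _ => h1⟩
        · push Not at h
          exact ⟨0, hR0, fun v hv => absurd hv (not_lt.2 (h v))⟩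
      have off : ∃ m ∈ R, ∀ v, ¬ 0 < c * f v + e → a * 0 + b = (m : ℤ) := by
        by_cases h : ∃ v, ¬ 0 < c * f v + e
        · obtain ⟨v, hv⟩ := h
          obtain ⟨m1, h1, h1'⟩ := huV v
          simp only [hv, if_false] at h1
          exact ⟨m1, hRm _ h1', fun _ _ => h1⟩
        · push Not at h
          exact ⟨0, hR0, fun v hv => absurd (h v) hv⟩
      obtain ⟨α, hα, hα'⟩ := on
      obtain ⟨β, hβ, hβ'⟩ := off
      obtain ⟨m, hm1, hm2, hm⟩ := exists_threshold V c e
      have hle : ∀ v, ((m : ℝ) ≤ f v ↔ m ≤ g v) := by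
        intro v
        rw [hg v]
        exact Int.cast_le
      rw [mem_image]
      rcases hm with hm | hm
      · refine ⟨((α, β), m), mem_product.2 ⟨mem_product.2 ⟨hα, hβ⟩, mem_Icc.2 ⟨hm1, hm2⟩⟩, ?_⟩
        funext v
        have h1 := hm (g v) (hgV v)
        rw [← hg v] at h1
        simp only
        by_cases h2 : 0 < c * f v + e
        · rw [if_pos h2, if_pos ((hle v).2 (h1.1 h2)), hα' v h2]
        · rw [if_neg h2, if_neg (fun h3 => h2 (h1.2 ((hle v).1 h3))), hβ' v h2]
      · refine ⟨((β, α), m), mem_product.2 ⟨mem_product.2 ⟨hβ, hα⟩, mem_Icc.2 ⟨hm1, hm2⟩⟩, ?_⟩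
        funext v
        have h1 := hm (g v) (hgV v)
        rw [← hg v] at h1
        simp only
        by_cases h2 : 0 < c * f v + e
        · rw [if_pos h2, if_neg (fun h3 => (h1.1 h2) ((hle v).1 h3)), hα' v h2]
        · rw [if_neg h2, if_pos ((hle v).2 (by by_contra h3; exact h2 (h1.2 h3))), hβ' v h2]

/-- The functions `G z` belong to a set of at most `N` functions. -/
def ICover {Z Y X : Type} (G : Z → Y → X → ℝ) (N : ℕ) : Prop :=
  ∃ S : Finset (Y → X → ℝ), S.card ≤ N ∧ ∀ z, G z ∈ S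

namespace ICover

variable {Z Y X X' : Type} {G : Z → Y → X → ℝ} {N : ℕ}

theorem mono {N' : ℕ} (h : ICover G N) (hN : N ≤ N') : ICover G N' := by
  obtain ⟨S, h1, h2⟩ := h
  exact ⟨S, h1.trans hN, h2⟩

open Classical in
theorem reindex (h : ICover G N) (f : X' → X) : ICover (fun z v x => G z v (f x)) N := by
  obtain ⟨S, h1, h2⟩ := h
  exact ⟨S.image (fun F => fun v x => F v (f x)), card_image_le.trans h1,
    fun z => mem_image_of_mem _ (h2 z)⟩

open Classical in
theorem col (h : ICover G N) (κ : Type) [Fintype κ] (Φ : κ → (Y → X → ℝ) → Y → ℝ) (k : Z → κ)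
    (g : Z → Y → ℝ) (hg : ∀ z, g z = Φ (k z) (G z)) :
    ICover (ext G g) (N * Fintype.card κ) := by
  obtain ⟨S, h1, h2⟩ := h
  refine ⟨(S ×ˢ (univ : Finset κ)).image (fun p => fun v x => x.elim (Φ p.2 p.1 v) (p.1 v)),
    ?_, fun z => ?_⟩
  · refine card_image_le.trans ?_
    rw [card_product, card_univ]
    exact Nat.mul_le_mul_right _ h1
  · rw [mem_image]
    refine ⟨(G z, k z), mem_product.2 ⟨h2 z, mem_univ _⟩, ?_⟩
    funext v x
    simp only [ext, hg]

open Classical in
theorem un (V : ℕ) (hV : 1 ≤ V) (g : Z → Y → ℝ) (h : ICover (ext G g) N)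
    (hg : ∀ z v, IsInt V (g z v)) (U : Z → ℝ → ℝ) (hU : ∀ z, Un (U z))
    (hgU : ∀ z v, IsInt V (U z (g z v))) :
    ICover (ext G (fun z v => U z (g z v))) (N * (2 * V + 1) ^ 4) := by
  obtain ⟨S, h1, h2⟩ := h
  have h3 : ∀ F : Y → Option X → ℝ, ∃ T : Finset (Y → ℝ), T.card ≤ (2 * V + 1) ^ 4 ∧
      ((∀ v, IsInt V (F v none)) → ∀ u, Un u → (∀ v, IsInt V (u (F v none))) →
        (fun v => u (F v none)) ∈ T) := by
    intro F
    by_cases hF : ∀ v, IsInt V (F v none)
    · obtain ⟨T, hT, hT'⟩ := un_family V hV (fun v => F v none) hF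
      exact ⟨T, hT, fun _ => hT'⟩
    · exact ⟨∅, by simp, fun h => absurd h hF⟩
  choose T hT hT' using h3
  refine ⟨S.biUnion (fun F => (T F).image (fun t => fun v x => x.elim (t v)
    (fun x => F v (some x)))), ?_, fun z => ?_⟩
  · refine card_biUnion_le.trans ?_
    refine (sum_le_card_nsmul _ _ ((2 * V + 1) ^ 4)
      fun F _ => card_image_le.trans (hT F)).trans ?_
    rw [smul_eq_mul]
    exact Nat.mul_le_mul_right _ h1
  · rw [mem_biUnion]
    refine ⟨ext G g z, h2 z, ?_⟩
    rw [mem_image]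
    refine ⟨fun v => U z (g z v), hT' _ (fun v => hg z v) (U z) (hU z) (fun v => hgU z v), ?_⟩
    funext v x
    cases x <;> rfl

end ICover

open Classical in
/-- The calculus for integers of absolute value at most `V`. -/
def intCalc (Z Y : Type) (s q' V : ℕ) (hq' : 1 ≤ q') (hV : 1 ≤ V) :
    Calc Z Y s q' (IsInt V) where
  C := fun X G n => ICover G (((2 * V + 1) ^ 4 * q' * (s + 1)) ^ n)
  zero := IsInt.zero V
  one := IsInt.one hV
  mono := fun X G n n' hn h => h.mono
    (Nat.pow_le_pow_right (by have : 0 < (2 * V + 1) ^ 4 * q' * (s + 1) := by positivity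
                              omega) hn)
  reindex := fun X X' f G n h => h.reindex f
  zcol := fun X G n h => by
    have := h.col Unit (fun _ _ _ => (0 : ℝ)) (fun _ => ()) (fun _ _ => 0) (fun _ => rfl)
    simpa using this
  step := by
    intro X G n h g c hb hg U hU hgU
    have hB : 1 ≤ ((2 * V + 1) ^ 4 * q' * (s + 1)) := by
      have : 0 < (2 * V + 1) ^ 4 * q' * (s + 1) := by positivity
      omega
    have fin : ∀ W' : ℕ, 1 ≤ c → W' ≤ q' * (s + 1) →
        ICover (ext G g) (((2 * V + 1) ^ 4 * q' * (s + 1)) ^ n * W') →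
        ICover (ext G (fun z v => U z (g z v)))
          (((2 * V + 1) ^ 4 * q' * (s + 1)) ^ (n + c)) := by
      intro W' hc hW hcov
      refine (hcov.un V hV g hg U hU hgU).mono ?_
      refine le_trans ?_ (Nat.pow_le_pow_right hB (by omega : n + 1 ≤ n + c))
      rw [pow_succ, mul_assoc]
      apply Nat.mul_le_mul_left
      calc W' * (2 * V + 1) ^ 4 ≤ (q' * (s + 1)) * (2 * V + 1) ^ 4 := Nat.mul_le_mul_right _ hW
        _ = _ := by ring
    have hq1 : 1 ≤ q' * (s + 1) := by
      have : 0 < q' * (s + 1) := by positivity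
      omega
    cases hb with
    | leaf κ f k hκ =>
      refine fin (Fintype.card κ) le_rfl (hκ.trans (Nat.le_mul_of_pos_right _ (by omega))) ?_
      exact h.col κ (fun k _ v => f k v) k _ (fun _ => rfl)
    | val x =>
      refine fin 1 le_rfl hq1 ?_
      have := h.col Unit (fun _ F v => F v x) (fun _ => ()) (fun z v => G z v x) (fun _ => rfl)
      simpa using this
    | add x x' =>
      refine fin 1 le_rfl hq1 ?_
      have := h.col Unit (fun _ F v => F v x + F v x') (fun _ => ())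
        (fun z v => G z v x + G z v x') (fun _ => rfl)
      simpa using this
    | mul x x' =>
      refine fin 1 le_rfl hq1 ?_
      have := h.col Unit (fun _ F v => F v x * F v x') (fun _ => ())
        (fun z v => G z v x * G z v x') (fun _ => rfl)
      simpa using this
    | sym A e H off cnt hA hoff hcnt =>
      refine fin (s + 1) (by omega) (Nat.le_mul_of_pos_left _ hq') ?_
      have := h.col (Fin (s + 1)) (fun o F v => H (o.val +
        (univ.filter (fun a => 0 < F v (e a))).card)) (fun z => ⟨off z, by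
          have := hoff z
          omega⟩) (fun z v => H (off z + cnt z v)) (fun z => by
            funext v
            simp only [hcnt])
      simpa using this

end Pool.Agent.Run7.h324.SR
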