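import Pool.Agent.Run7.h324.SR.IntCov
import Pool.Agent.Y638.RF.NetLower
import Pool.Agent.Y638.WF.Lower

set_option autoImplicit false

/-! # Lower bounds for circuits with shared numbers -/

namespace Pool.Agent.Run7.h324.SR

open Finset Pool.Agent.TH697.Form Pool.Agent.TH697.Row
open Pool.Agent.Y638.RF (Un)

section gen

variable {ι : Type} {D : ι → Type} [DecidableEq ι] {T Y : Type} [Fintype T]
  {Ω : Type} [Fintype Ω]

open Classical in
/-- If the bits of a string `z` which is encoded in the other items can be queried by item `i`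
(up to a small number of errors), then the random function has many subfunctions in item `i`. -/
theorem gen_err (μ : Ω → ℝ) (hμ : IsProb μ) (G : Ω → (∀ i, D i) → Bool)
    (P : (∀ i, D i) → Prop) (f : (∀ i, D i) → Bool) (c : ℝ)
    (hG : ∀ x, P x → ∑ ω ∈ univ.filter (fun ω => G ω x ≠ f x), μ ω ≤ c) (i : ι)
    (y : Y → D i) (S : Ω → Finset (Y → Bool))
    (R : (T → Bool) → ∀ i, D i)
    (hS : ∀ ω z, (fun v => G ω (Function.update (R z) i (y v))) ∈ S ω)
    (r : T → ℕ) (Q : T → (T → Bool) → Y)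
    (hQ : ∀ t z z', (∀ s, r s < r t → z s = z' s) → Q t z = Q t z')
    (hP : ∀ t z, P (Function.update (R z) i (y (Q t z)))) (δ : ℝ)
    (hf : ∑ z : T → Bool, ((univ.filter (fun t => f (Function.update (R z) i (y (Q t z))) ≠
      z t)).card : ℝ) ≤ δ * Fintype.card T * 2 ^ Fintype.card T) :
    (415 / 1000 - c - δ) * Fintype.card T * Real.log 2 ≤ ∑ ω, μ ω * Real.log (S ω).card := by
  obtain ⟨N, hN⟩ : ∃ N, N = Fintype.card T := ⟨_, rfl⟩
  rw [← hN] at hf
  obtain ⟨E, hE⟩ : ∃ E : Ω → ℝ, E = fun ω => (∑ z : T → Bool,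
      ((univ.filter (fun t => G ω (Function.update (R z) i (y (Q t z))) ≠ z t)).card : ℝ)) /
        2 ^ Fintype.card T := ⟨_, rfl⟩
  have h6 : (0 : ℝ) < Real.log 2 := Real.log_pos (by norm_num)
  have h1 : ∀ ω, Real.log 2 * ((415 / 1000 : ℝ) * N - E ω) ≤ Real.log (S ω).card := by
    intro ω
    have hne : 1 ≤ (S ω).card := card_pos.2 ⟨_, hS ω (fun _ => false)⟩
    have hcd := coding r Q hQ (S ω) hne
      (fun z => fun v => G ω (Function.update (R z) i (y v))) (fun z => hS ω z)
    have h5 := log_43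
    have h7 : (0 : ℝ) ≤ N := Nat.cast_nonneg N
    have h8 : (N : ℝ) * Real.log (4 / 3) - Real.log 2 * E ω ≤ Real.log (S ω).card := by
      rw [hN]
      simp only [hE]
      exact hcd
    have h9 := mul_le_mul_of_nonneg_left h5 h7
    linarith
  have h2 : ∑ ω, μ ω * E ω ≤ c * N + δ * N := by
    have e5 : ∀ ω, μ ω * E ω ≤ (∑ z : T → Bool, ∑ t : T,
        (if G ω (Function.update (R z) i (y (Q t z))) ≠ f (Function.update (R z) i (y (Q t z)))
          then μ ω else 0)) / 2 ^ N + μ ω * (δ * N) := by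
      intro ω
      have h8 : ∑ z : T → Bool,
          ((univ.filter (fun t => G ω (Function.update (R z) i (y (Q t z))) ≠ z t)).card : ℝ) ≤
          ∑ z : T → Bool, ((univ.filter (fun t => G ω (Function.update (R z) i (y (Q t z))) ≠
            f (Function.update (R z) i (y (Q t z))))).card : ℝ) + δ * N * 2 ^ N := by
        have h9 : ∑ z : T → Bool,
          ((univ.filter (fun t => G ω (Function.update (R z) i (y (Q t z))) ≠ z t)).card : ℝ) ≤
          ∑ z : T → Bool, (((univ.filter (fun t => G ω (Function.update (R z) i (y (Q t z))) ≠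
            f (Function.update (R z) i (y (Q t z))))).card : ℝ) +
            ((univ.filter (fun t => f (Function.update (R z) i (y (Q t z))) ≠ z t)).card : ℝ)) := by
          apply sum_le_sum
          intro z _
          have h10 : univ.filter (fun t => G ω (Function.update (R z) i (y (Q t z))) ≠ z t) ⊆
              univ.filter (fun t => G ω (Function.update (R z) i (y (Q t z))) ≠
                f (Function.update (R z) i (y (Q t z)))) ∪
              univ.filter (fun t => f (Function.update (R z) i (y (Q t z))) ≠ z t) := by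
            intro t
            rw [mem_union, mem_filter, mem_filter, mem_filter]
            rintro ⟨-, h⟩
            by_cases h11 : G ω (Function.update (R z) i (y (Q t z))) =
                f (Function.update (R z) i (y (Q t z)))
            · right
              exact ⟨mem_univ _, fun h12 => h (h11.trans h12)⟩
            · left
              exact ⟨mem_univ _, h11⟩
          exact_mod_cast (card_le_card h10).trans (card_union_le _ _)
        rw [sum_add_distrib] at h9
        linarith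
      have e6 : ∑ z : T → Bool, ∑ t : T, (if G ω (Function.update (R z) i (y (Q t z))) ≠
          f (Function.update (R z) i (y (Q t z))) then μ ω else 0) =
          μ ω * ∑ z : T → Bool, ((univ.filter (fun t => G ω (Function.update (R z) i (y (Q t z))) ≠
            f (Function.update (R z) i (y (Q t z))))).card : ℝ) := by
        rw [mul_sum]
        refine sum_congr rfl fun z _ => ?_
        rw [card_filter, Nat.cast_sum, mul_sum]
        refine sum_congr rfl fun t _ => ?_
        split_ifs <;> simp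
      rw [e6]
      simp only [hE]
      rw [← hN]
      have h12 := mul_le_mul_of_nonneg_left h8 (hμ.nonneg ω)
      rw [mul_add] at h12
      have h13 := div_le_div_of_nonneg_right h12 (by positivity : (0 : ℝ) ≤ 2 ^ N)
      rw [add_div] at h13
      calc _ = μ ω * (∑ z : T → Bool,
          ((univ.filter (fun t => G ω (Function.update (R z) i (y (Q t z))) ≠ z t)).card : ℝ)) /
            2 ^ N := by rw [mul_div_assoc]
        _ ≤ _ := h13
        _ = _ := by
          congr 1
          field_simp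
    have e1 : ∑ ω, μ ω * E ω ≤ (∑ z : T → Bool, ∑ t : T,
        ∑ ω ∈ univ.filter (fun ω => G ω (Function.update (R z) i (y (Q t z))) ≠
          f (Function.update (R z) i (y (Q t z)))), μ ω) / 2 ^ N + δ * N := by
      refine (sum_le_sum fun ω _ => e5 ω).trans (le_of_eq ?_)
      rw [sum_add_distrib, ← sum_mul, hμ.sum_one, one_mul, ← sum_div, sum_comm]
      congr 2
      refine sum_congr rfl fun z _ => ?_
      rw [sum_comm]
      refine sum_congr rfl fun t _ => ?_
      rw [sum_filter]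
    refine e1.trans (add_le_add_left ?_ _)
    rw [div_le_iff₀ (by positivity)]
    calc _ ≤ ∑ _z : T → Bool, ∑ _t : T, c :=
          sum_le_sum fun z _ => sum_le_sum fun t _ => hG _ (hP t z)
      _ = c * N * 2 ^ N := by
          simp only [sum_const, card_univ, nsmul_eq_mul, Fintype.card_fun, Fintype.card_bool,
            ← hN]
          push_cast
          ring
  have h3 := sum_le_sum fun ω (_ : ω ∈ (univ : Finset Ω)) =>
    mul_le_mul_of_nonneg_left (h1 ω) (hμ.nonneg ω)
  have e2 : ∑ ω, μ ω * (Real.log 2 * ((415 / 1000 : ℝ) * N - E ω))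
      = Real.log 2 * ((415 / 1000 : ℝ) * N - ∑ ω, μ ω * E ω) := by
    have : ∀ ω, μ ω * (Real.log 2 * ((415 / 1000 : ℝ) * N - E ω))
        = Real.log 2 * ((415 / 1000 : ℝ) * N) * μ ω - Real.log 2 * (μ ω * E ω) := by
      intro ω; ring
    simp_rw [this]
    rw [sum_sub_distrib, ← mul_sum, ← mul_sum, hμ.sum_one]
    ring
  rw [e2] at h3
  refine le_trans ?_ h3
  rw [← hN, mul_comm _ (Real.log 2)]
  apply mul_le_mul_of_nonneg_left _ h6.le
  linarith

end gen

section

variable {ι : Type} {D : ι → Type} [DecidableEq ι] {T : Type} [Fintype T] {Ω : Type} [Fintype Ω]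

open Classical in
/-- The bits of a string can be queried by item `i`, and there are few subfunctions of item `i`:
the logarithm of their number is at most `1 + a r ^ 2 + L r`, if `r` leaves see the item. -/
def Few (μ : Ω → ℝ) (G : Ω → (∀ i, D i) → Bool) (P : (∀ i, D i) → Prop)
    (f : (∀ i, D i) → Bool) (T : Type) [Fintype T] (δ : ℝ) (rd : Ω → ℕ) (a L : ℝ) (i : ι) : Prop :=
  ∃ (Y : Type) (y : Y → D i) (S : Ω → Finset (Y → Bool)) (R : (T → Bool) → ∀ i, D i)
    (r : T → ℕ) (Q : T → (T → Bool) → Y),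
    (∀ ω z, (fun v => G ω (Function.update (R z) i (y v))) ∈ S ω) ∧
    (∀ t z z', (∀ s, r s < r t → z s = z' s) → Q t z = Q t z') ∧
    (∀ t z, P (Function.update (R z) i (y (Q t z)))) ∧
    (∑ z : T → Bool, ((univ.filter (fun t => f (Function.update (R z) i (y (Q t z))) ≠
      z t)).card : ℝ) ≤ δ * Fintype.card T * 2 ^ Fintype.card T) ∧
    ∀ ω, Real.log (S ω).card ≤ (1 + a * (rd ω : ℝ) ^ 2 + L * rd ω) * Real.log 2

open Classical in
theorem lower (μ : Ω → ℝ) (hμ : IsProb μ) (G : Ω → (∀ i, D i) → Bool)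
    (P : (∀ i, D i) → Prop) (f : (∀ i, D i) → Bool)
    (hF : ApproximatesOn μ G P f) (rd : Ω → ι → ℕ) (s : ℕ) (I : Finset ι)
    (hs : ∀ ω, ∑ i ∈ I, rd ω i ≤ s) (δ a L : ℝ) (ha : 0 ≤ a) (hL : 0 ≤ L)
    (h : ∀ i ∈ I, Few μ G P f T δ (fun ω => rd ω i) a L i) (θ : ℝ) (hθ : 0 < θ)
    (hsmall : 1 + a * (40 * θ) ^ 2 + L * (40 * θ) < (17 / 300 - δ) * Fintype.card T) :
    (I.card : ℝ) * θ ≤ s := by
  have h6 : (0 : ℝ) < Real.log 2 := Real.log_pos (by norm_num)
  -- every item is read often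
  have h1 : ∀ i ∈ I, θ ≤ ∑ ω, μ ω * (rd ω i : ℝ) := by
    intro i hi
    by_contra hlt
    push Not at hlt
    obtain ⟨Y, y, S, R, r, Q, hS, hQ, hP, hf, hlog⟩ := h i hi
    obtain ⟨bad, hbad⟩ : ∃ bad : Finset Ω, bad = univ.filter (fun ω => 40 * θ < (rd ω i : ℝ)) :=
      ⟨_, rfl⟩
    have hmark : ∑ ω ∈ bad, μ ω ≤ 1 / 40 := by
      have h2 : ∑ ω ∈ bad, μ ω * (40 * θ) ≤ ∑ ω, μ ω * (rd ω i : ℝ) := by
        calc ∑ ω ∈ bad, μ ω * (40 * θ) ≤ ∑ ω ∈ bad, μ ω * (rd ω i : ℝ) := by
              apply sum_le_sum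
              intro ω hω
              rw [hbad, mem_filter] at hω
              exact mul_le_mul_of_nonneg_left hω.2.le (hμ.nonneg ω)
          _ ≤ _ := sum_le_sum_of_subset_of_nonneg (subset_univ _) (fun ω _ _ =>
              mul_nonneg (hμ.nonneg ω) (Nat.cast_nonneg _))
      rw [← sum_mul] at h2
      have h3 : (∑ ω ∈ bad, μ ω) * (40 * θ) < θ := lt_of_le_of_lt h2 hlt
      nlinarith
    obtain ⟨G', hG⟩ : ∃ G' : Ω → (∀ i, D i) → Bool, ∀ ω x, G' ω x =
        if ω ∈ bad then false else G ω x := ⟨_, fun _ _ => rfl⟩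
    have hGerr : ∀ x, P x → ∑ ω ∈ univ.filter (fun ω => G' ω x ≠ f x), μ ω ≤ 1 / 3 + 1 / 40 := by
      intro x hx
      have h2 : univ.filter (fun ω => G' ω x ≠ f x) ⊆
          univ.filter (fun ω => G ω x ≠ f x) ∪ bad := by
        intro ω hω
        rw [mem_filter] at hω
        rw [mem_union, mem_filter]
        by_cases hb : ω ∈ bad
        · exact Or.inr hb
        · left
          have h3 := hω.2
          rw [hG, if_neg hb] at h3
          exact ⟨mem_univ _, h3⟩
      calc ∑ ω ∈ univ.filter (fun ω => G' ω x ≠ f x), μ ω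
          ≤ ∑ ω ∈ univ.filter (fun ω => G ω x ≠ f x) ∪ bad, μ ω :=
            sum_le_sum_of_subset_of_nonneg h2 (fun ω _ _ => hμ.nonneg ω)
        _ ≤ ∑ ω ∈ univ.filter (fun ω => G ω x ≠ f x), μ ω + ∑ ω ∈ bad, μ ω := by
            rw [← sum_union_inter]
            have : 0 ≤ ∑ ω ∈ univ.filter (fun ω => G ω x ≠ f x) ∩ bad, μ ω :=
              sum_nonneg fun ω _ => hμ.nonneg ω
            linarith
        _ ≤ _ := add_le_add (hF x hx) hmark
    have h2 := gen_err μ hμ G' P f (1 / 3 + 1 / 40) hGerr i y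
      (fun ω => if ω ∈ bad then {fun _ => false} else S ω) R (fun ω z => by
        by_cases hb : ω ∈ bad
        · rw [if_pos hb, mem_singleton]
          funext v
          rw [hG, if_pos hb]
        · rw [if_neg hb]
          have : (fun v => G' ω (Function.update (R z) i (y v))) =
              fun v => G ω (Function.update (R z) i (y v)) := by
            funext v
            rw [hG, if_neg hb]
          rw [this]
          exact hS ω z) r Q hQ hP δ hf
    have h3 : ∀ ω, μ ω * Real.log ((if ω ∈ bad then {fun _ => false} else S ω : Finset _).card : ℝ) ≤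
        μ ω * ((1 + a * (40 * θ) ^ 2 + L * (40 * θ)) * Real.log 2) := by
      intro ω
      apply mul_le_mul_of_nonneg_left _ (hμ.nonneg ω)
      by_cases hb : ω ∈ bad
      · rw [if_pos hb, card_singleton, Nat.cast_one, Real.log_one]
        positivity
      · rw [if_neg hb]
        have hr : (rd ω i : ℝ) ≤ 40 * θ := by
          rw [hbad, mem_filter] at hb
          push Not at hb
          exact hb (mem_univ _)
        refine (hlog ω).trans ?_
        apply mul_le_mul_of_nonneg_right _ h6.le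
        have h7 : ((rd ω i : ℝ)) ^ 2 ≤ (40 * θ) ^ 2 := pow_le_pow_left₀ (by positivity) hr 2
        have h8 := mul_le_mul_of_nonneg_left h7 ha
        have h9 := mul_le_mul_of_nonneg_left hr hL
        linarith
    have h4 := h2.trans (sum_le_sum fun ω (_ : ω ∈ (univ : Finset Ω)) => h3 ω)
    rw [← sum_mul, hμ.sum_one, one_mul] at h4
    have h5 := le_of_mul_le_mul_right h4 h6
    have h7 : (415 / 1000 - (1 / 3 + 1 / 40) - δ) * (Fintype.card T : ℝ) =
        (17 / 300 - δ) * Fintype.card T := by ring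
    rw [h7] at h5
    linarith
  have h2 := sum_le_sum h1
  rw [sum_const, nsmul_eq_mul, sum_comm] at h2
  refine h2.trans ?_
  have e1 : (s : ℝ) = ∑ ω, μ ω * s := by
    rw [← sum_mul, hμ.sum_one, one_mul]
  rw [e1]
  apply sum_le_sum
  intro ω _
  rw [← mul_sum]
  apply mul_le_mul_of_nonneg_left _ (hμ.nonneg ω)
  exact_mod_cast hs ω

/-- The same with a closed form. -/
theorem bound (μ : Ω → ℝ) (hμ : IsProb μ) (G : Ω → (∀ i, D i) → Bool)
    (P : (∀ i, D i) → Prop) (f : (∀ i, D i) → Bool)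
    (hF : ApproximatesOn μ G P f) (rd : Ω → ι → ℕ) (s : ℕ) (I : Finset ι)
    (hs : ∀ ω, ∑ i ∈ I, rd ω i ≤ s) (δ b L : ℝ) (hδ : δ ≤ 1 / 32) (hb : 0 ≤ b) (hL : 0 < L)
    (h : ∀ i ∈ I, Few μ G P f T δ (fun ω => rd ω i) (b ^ 2) L i) (t : ℝ) (ht : 100 ≤ t)
    (hT : t ≤ Fintype.card T) :
    (I.card : ℝ) * t ≤ 3000 * (b * Real.sqrt t + L) * s := by
  obtain ⟨u, hu⟩ : ∃ u : ℝ, u = Real.sqrt t := ⟨_, rfl⟩
  have hu2 : u ^ 2 = t := by rw [hu]; exact Real.sq_sqrt (by linarith)
  have hu0 : 0 ≤ u := by rw [hu]; exact Real.sqrt_nonneg _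
  obtain ⟨x, hx⟩ : ∃ x : ℝ, x = b * u + L := ⟨_, rfl⟩
  have hx0 : 0 < x := by
    rw [hx]
    have := mul_nonneg hb hu0
    linarith
  have hbu : b * u ≤ x := by rw [hx]; linarith
  have hLx : L ≤ x := by
    rw [hx]
    have := mul_nonneg hb hu0
    linarith
  obtain ⟨θ, hθ⟩ : ∃ θ : ℝ, θ = t / (3000 * x) := ⟨_, rfl⟩
  have hθ0 : 0 < θ := by
    rw [hθ]
    have : 0 < t := by linarith
    positivity
  have hθx : 40 * θ * x = t / 75 := by
    rw [hθ]
    field_simp
    norm_num
  have h1 := lower (T := T) μ hμ G P f hF rd s I hs δ (b ^ 2) L (by positivity) hL.le h θ hθ0 (by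
    have h2 : L * (40 * θ) ≤ t / 75 := by
      rw [← hθx, mul_comm]
      exact mul_le_mul_of_nonneg_left hLx (by positivity)
    have h3 : b * (40 * θ) * u ≤ t / 75 := by
      rw [← hθx]
      calc b * (40 * θ) * u = 40 * θ * (b * u) := by ring
        _ ≤ _ := mul_le_mul_of_nonneg_left hbu (by positivity)
    have h4 : b ^ 2 * (40 * θ) ^ 2 ≤ t / 5625 := by
      have h5 : (b * (40 * θ) * u) ^ 2 ≤ (t / 75) ^ 2 :=
        pow_le_pow_left₀ (by positivity) h3 2
      have h6 : (b * (40 * θ) * u) ^ 2 = b ^ 2 * (40 * θ) ^ 2 * t := by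
        rw [← hu2]; ring
      rw [h6] at h5
      have h7 : (t / 75) ^ 2 = t / 5625 * t := by ring
      rw [h7] at h5
      exact le_of_mul_le_mul_right h5 (by linarith)
    have h8 : (17 / 300 - 1 / 32) * t ≤ (17 / 300 - δ) * t :=
      mul_le_mul_of_nonneg_right (by linarith) (by linarith)
    have h9 : (17 / 300 - δ) * t ≤ (17 / 300 - δ) * Fintype.card T :=
      mul_le_mul_of_nonneg_left hT (by linarith)
    linarith)
  rw [← hu, ← hx]
  have h2 : (I.card : ℝ) * t = 3000 * x * (I.card * θ) := by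
    rw [hθ]
    field_simp
  rw [h2]
  exact mul_le_mul_of_nonneg_left h1 (by positivity)

variable {w q : ℕ}

open Classical in
/-- The lower bound for circuits with shared real numbers. -/
theorem real_bound (μ : Ω → ℝ) (hμ : IsProb μ) (C : Ω → Circuit ι D w q)
    (P : (∀ i, D i) → Prop) (f : (∀ i, D i) → Bool)
    (hF : ApproximatesOn μ (fun ω => (C ω).accepts) P f) (I : Finset ι) (s : ℕ)
    (hs : ∀ ω, (C ω).circ.cost I ≤ s) (hq : 1 ≤ q) (hw : 1 ≤ w) (K M : ℕ) (hM : 8 * K + 2 ≤ M)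
    (hM' : s + 1 ≤ M) (δ : ℝ) (hδ : δ ≤ 1 / 32)
    (h : ∀ i ∈ I, Pool.Agent.Y638.RF.Asks T K δ P f i) (t : ℝ) (ht : 100 ≤ t)
    (hT : t ≤ Fintype.card T) :
    (I.card : ℝ) * t ≤ 3000 * (9 * Real.sqrt t +
      (2 + 10 * Real.logb 2 M + 2 * (w - 1) * Real.logb 2 q)) * s := by
  have h6 : (0 : ℝ) < Real.log 2 := Real.log_pos (by norm_num)
  have hlq : 0 ≤ Real.logb 2 (q : ℝ) := Real.logb_nonneg (by norm_num) (by exact_mod_cast hq)
  have hlM : 0 ≤ Real.logb 2 (M : ℝ) :=
    Real.logb_nonneg (by norm_num) (by exact_mod_cast (by omega : 1 ≤ M))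
  have hw1 : (0 : ℝ) ≤ (w : ℝ) - 1 := by
    have : (1 : ℝ) ≤ w := by exact_mod_cast hw
    linarith
  refine bound (T := T) μ hμ (fun ω => (C ω).accepts) P f hF (fun ω i => (C ω).circ.reads i) s I
    (fun ω => ((C ω).circ.sum_reads_le I).trans (hs ω)) δ 9 _ hδ (by norm_num) ?_ ?_ t ht hT
  · positivity
  intro i hi
  obtain ⟨A, r, Q, R, hA, hQA, hQ, hP, hf⟩ := h i hi
  have hq' : 1 ≤ q ^ (w - 1) := Nat.one_le_pow _ _ hq
  obtain ⟨N, hN⟩ : ∃ N : ℕ → ℕ, N = fun n => (2 * q ^ (w - 1) * (s + 1)) ^ n *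
      (4 * (Fintype.card {d // d ∈ A} * 2 ^ (3 * n + 1)) * 3 ^ n + 2) ^ (4 * n) := ⟨_, rfl⟩
  have hN1 : ∀ n, 1 ≤ N n := by
    intro n
    simp only [hN]
    have h2 : 0 < (2 * q ^ (w - 1) * (s + 1)) ^ n := by positivity
    have h3 : 0 < (4 * (Fintype.card {d // d ∈ A} * 2 ^ (3 * n + 1)) * 3 ^ n + 2) ^ (4 * n) := by
      positivity
    have := Nat.mul_pos h2 h3
    omega
  choose S hS1 hS2 using fun ω => (C ω).subfunctions
    (realCalc (T → Bool) {d // d ∈ A} s (q ^ (w - 1)) hq' (fun _ => True) trivial trivial) hq R i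
    (fun v => v.1) I (fun G => Cover.init G) N hN1 (fun X G n x hc => by
      obtain ⟨S, h1, h2⟩ := hc.bool x
      exact ⟨S, h1.trans (le_of_eq (by rw [hN])), h2⟩) (hs ω) (fun z v => by
      have all : ∀ {m : ℕ} (F : Fml ι D w q m) (x : ∀ i, D i) (r : Fin m → ℝ),
          F.All (fun _ => True) x r := by
        intro m F x r
        induction F with
        | const c => trivial
        | item j f => trivial
        | word τ => trivial
        | val k => trivial
        | add F G ihF ihG => exact ⟨ihF, ihG, trivial⟩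
        | mul F G ihF ihG => exact ⟨ihF, ihG, trivial⟩
        | pos F ih => exact ih
        | sym k H F ih => exact ⟨ih, trivial⟩
      have all' : ∀ {m : ℕ} (C : Circ ι D w q m) (x : ∀ i, D i), C.All (fun _ => True) x := by
        intro m C x
        induction C with
        | nil => trivial
        | snoc C F ih => exact ⟨ih, all F x _⟩
      exact all' _ _)
  refine ⟨{d // d ∈ A}, fun v => v.1, S, R, r, fun t z => ⟨Q t z, hQA t z⟩, fun ω z => hS2 ω z,
    fun t z z' hz => Subtype.ext (hQ t z z' hz), hP, hf, fun ω => ?_⟩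
  obtain ⟨k, hk⟩ : ∃ k : ℕ, k = (C ω).circ.reads i := ⟨_, rfl⟩
  have hne : 1 ≤ (S ω).card := card_pos.2 ⟨_, hS2 ω (fun _ => false)⟩
  have h2 : (S ω).card ≤ 2 * ((2 * q ^ (w - 1) * M) ^ (2 * k) *
      (M * 2 ^ (10 * k)) ^ (8 * k)) := by
    refine (hS1 ω).trans ?_
    apply Nat.mul_le_mul_left
    rw [hN, ← hk]
    apply Nat.mul_le_mul
    · apply Nat.pow_le_pow_left
      exact Nat.mul_le_mul_left _ hM'
    · rw [show 4 * (2 * k) = 8 * k by ring]
      apply Nat.pow_le_pow_left
      have e1 : 4 * (Fintype.card {d // d ∈ A} * 2 ^ (3 * (2 * k) + 1)) * 3 ^ (2 * k) + 2 ≤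
          (8 * Fintype.card {d // d ∈ A} + 2) * (2 ^ (6 * k) * 3 ^ (2 * k)) := by
        have e2 : 2 ^ (3 * (2 * k) + 1) = 2 * 2 ^ (6 * k) := by
          rw [pow_succ, show 3 * (2 * k) = 6 * k by ring]
          ring
        rw [e2]
        have e3 : 1 ≤ 2 ^ (6 * k) * 3 ^ (2 * k) := by
          have : 0 < 2 ^ (6 * k) * 3 ^ (2 * k) := by positivity
          omega
        nlinarith
      refine e1.trans ?_
      apply Nat.mul_le_mul
      · rw [Fintype.card_coe]
        omega
      · calc 2 ^ (6 * k) * 3 ^ (2 * k) ≤ 2 ^ (6 * k) * 2 ^ (4 * k) := by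
              apply Nat.mul_le_mul_left
              rw [show 4 * k = 2 * (2 * k) by ring, pow_mul 2 2 (2 * k)]
              exact Nat.pow_le_pow_left (by norm_num) _
          _ = 2 ^ (10 * k) := by rw [← pow_add]; congr 1; ring
  have h3 : ((S ω).card : ℝ) ≤ 2 * ((2 * (q : ℝ) ^ (w - 1) * M) ^ (2 * k) *
      ((M : ℝ) * 2 ^ (10 * k)) ^ (8 * k)) := by
    exact_mod_cast h2
  have h4 := Real.log_le_log (by exact_mod_cast hne) h3
  have hM0 : (0 : ℝ) < M := by exact_mod_cast (by omega : 0 < M)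
  have hq0 : (0 : ℝ) < q := by exact_mod_cast hq
  have hwc : ((w - 1 : ℕ) : ℝ) = (w : ℝ) - 1 := by
    rw [Nat.cast_sub hw, Nat.cast_one]
  rw [Real.log_mul (by norm_num) (by positivity), Real.log_mul (by positivity) (by positivity),
    Real.log_pow, Real.log_pow, Real.log_mul (by positivity) (by positivity),
    Real.log_mul (by norm_num) (by positivity), Real.log_mul (by positivity) (by positivity),
    Real.log_pow, Real.log_pow, hwc] at h4
  have e4 : Real.log (M : ℝ) = Real.logb 2 M * Real.log 2 := by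
    rw [Real.logb]; field_simp
  have e5 : Real.log (q : ℝ) = Real.logb 2 q * Real.log 2 := by
    rw [Real.logb]; field_simp
  rw [e4, e5] at h4
  push_cast at h4
  beta_reduce
  rw [← hk]
  refine h4.trans ?_
  have e6 : Real.log 2 + (2 * (k : ℝ) * (Real.log 2 + (↑w - 1) * (Real.logb 2 q * Real.log 2) +
      Real.logb 2 M * Real.log 2) + 8 * k * (Real.logb 2 M * Real.log 2 + 10 * k * Real.log 2)) =
      (1 + 80 * (k : ℝ) ^ 2 + (2 + 10 * Real.logb 2 M + 2 * (↑w - 1) * Real.logb 2 q) * k) *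
        Real.log 2 := by ring
  rw [e6]
  apply mul_le_mul_of_nonneg_right _ h6.le
  have : (0 : ℝ) ≤ (k : ℝ) ^ 2 := by positivity
  linarith

open Classical in
/-- The lower bound for circuits with shared integers. -/
theorem int_bound (μ : Ω → ℝ) (hμ : IsProb μ) (C : Ω → Circuit ι D w q)
    (P : (∀ i, D i) → Prop) (f : (∀ i, D i) → Bool)
    (hF : ApproximatesOn μ (fun ω => (C ω).accepts) P f) (I : Finset ι) (s : ℕ)
    (hs : ∀ ω, (C ω).circ.cost I ≤ s) (hq : 1 ≤ q) (hw : 1 ≤ w) (V : ℕ) (hV : 1 ≤ V)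
    (hC : ∀ ω x, P x → (C ω).circ.All (IsInt V) x) (δ : ℝ) (hδ : δ ≤ 1 / 32)
    (h : ∀ i ∈ I, Pool.Agent.Y638.WF.Asks T δ P f i) (t : ℝ) (ht : 100 ≤ t)
    (hT : t ≤ Fintype.card T) :
    (I.card : ℝ) * t ≤ 3000 * (8 * Real.logb 2 (2 * V + 1) + 2 * Real.logb 2 (s + 1) +
      2 * (w - 1) * Real.logb 2 q) * s := by
  have h6 : (0 : ℝ) < Real.log 2 := Real.log_pos (by norm_num)
  have hlq : 0 ≤ Real.logb 2 (q : ℝ) := Real.logb_nonneg (by norm_num) (by exact_mod_cast hq)
  have hls : 0 ≤ Real.logb 2 ((s : ℝ) + 1) :=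
    Real.logb_nonneg (by norm_num) (by linarith [(Nat.cast_nonneg s : (0 : ℝ) ≤ s)])
  have hV' : (1 : ℝ) ≤ V := by exact_mod_cast hV
  have hlV : 0 < Real.logb 2 (2 * (V : ℝ) + 1) := Real.logb_pos (by norm_num) (by linarith)
  have hw1 : (0 : ℝ) ≤ (w : ℝ) - 1 := by
    have : (1 : ℝ) ≤ w := by exact_mod_cast hw
    linarith
  have h0 := bound (T := T) μ hμ (fun ω => (C ω).accepts) P f hF
    (fun ω i => (C ω).circ.reads i) s I
    (fun ω => ((C ω).circ.sum_reads_le I).trans (hs ω)) δ 0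
    (8 * Real.logb 2 (2 * V + 1) + 2 * Real.logb 2 (s + 1) + 2 * (w - 1) * Real.logb 2 q)
    hδ (by norm_num) (by positivity) ?_ t ht hT
  · simpa using h0
  intro i hi
  obtain ⟨A, r, Q, R, hQA, hQ, hP, hf⟩ := h i hi
  have hq' : 1 ≤ q ^ (w - 1) := Nat.one_le_pow _ _ hq
  obtain ⟨N, hN⟩ : ∃ N : ℕ → ℕ, N = fun n => ((2 * V + 1) ^ 4 * q ^ (w - 1) * (s + 1)) ^ n :=
    ⟨_, rfl⟩
  have hN1 : ∀ n, 1 ≤ N n := by
    intro n
    simp only [hN]
    have h2 : 0 < ((2 * V + 1) ^ 4 * q ^ (w - 1) * (s + 1)) ^ n := by positivity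
    omega
  choose S hS1 hS2 using fun ω => (C ω).subfunctions
    (intCalc (T → Bool) {d // d ∈ A} s (q ^ (w - 1)) V hq' hV) hq R i
    (fun v => v.1) I (fun G => by
      refine ⟨{fun _ x => x.elim0}, by simp, fun z => ?_⟩
      rw [mem_singleton]
      funext v x
      exact x.elim0) N hN1 (fun X G n x hc => by
      obtain ⟨S, h1, h2⟩ := hc
      exact ⟨S.image (fun F => fun v => decide (0 < F v x)), card_image_le.trans
        (h1.trans (le_of_eq (by rw [hN]))), fun z => mem_image_of_mem _ (h2 z)⟩)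
    (hs ω) (fun z v => hC ω _ (hP v.1 v.2 z))
  refine ⟨{d // d ∈ A}, fun v => v.1, S, R, r, fun t z => ⟨Q t z, hQA t z⟩, fun ω z => hS2 ω z,
    fun t z z' hz => Subtype.ext (hQ t z z' hz), fun t z => hP _ (hQA t z) z, hf, fun ω => ?_⟩
  obtain ⟨k, hk⟩ : ∃ k : ℕ, k = (C ω).circ.reads i := ⟨_, rfl⟩
  have hne : 1 ≤ (S ω).card := card_pos.2 ⟨_, hS2 ω (fun _ => false)⟩
  have h3 : ((S ω).card : ℝ) ≤ 2 * ((2 * (V : ℝ) + 1) ^ 4 * (q : ℝ) ^ (w - 1) *
      ((s : ℝ) + 1)) ^ (2 * k) := by
    have h2 := hS1 ω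
    rw [hN, ← hk] at h2
    exact_mod_cast h2
  have h4 := Real.log_le_log (by exact_mod_cast hne) h3
  have hq0 : (0 : ℝ) < q := by exact_mod_cast hq
  have hwc : ((w - 1 : ℕ) : ℝ) = (w : ℝ) - 1 := by
    rw [Nat.cast_sub hw, Nat.cast_one]
  rw [Real.log_mul (by norm_num) (by positivity), Real.log_pow,
    Real.log_mul (by positivity) (by positivity), Real.log_mul (by positivity) (by positivity),
    Real.log_pow, Real.log_pow, hwc] at h4
  have e4 : Real.log (2 * (V : ℝ) + 1) = Real.logb 2 (2 * V + 1) * Real.log 2 := by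
    rw [Real.logb]; field_simp
  have e5 : Real.log (q : ℝ) = Real.logb 2 q * Real.log 2 := by
    rw [Real.logb]; field_simp
  have e7 : Real.log ((s : ℝ) + 1) = Real.logb 2 (s + 1) * Real.log 2 := by
    rw [Real.logb]; field_simp
  rw [e4, e5, e7] at h4
  push_cast at h4
  beta_reduce
  rw [← hk]
  refine h4.trans (le_of_eq ?_)
  ring

end

end Pool.Agent.Run7.h324.SR
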