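import Pool.Agent.Run7.h324.SR.Lower
import Pool.Agent.N599.OM.WF
import Pool.Agent.N452.TF.Xor

set_option autoImplicit false

/-! # Products `u_iᵀ M v_i`: lower bounds for circuits with shared numbers -/

namespace Pool.Agent.Run7.h324.SR.OM

open Finset Pool.Agent.TH697.Row
open Pool.Agent.TH697.Form (IsProb)
open Pool.Agent.N452.TF.Xor (pairs)

variable {n c w b : ℕ}

theorem logb_n (hn : 32 ≤ n) : 5 ≤ Real.logb 2 n ∧ Real.logb 2 n ≤ 5 / 32 * n := by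
  have hn' : (32 : ℝ) ≤ n := by exact_mod_cast hn
  have h2 : (0 : ℝ) < Real.log 2 := Real.log_pos (by norm_num)
  have h3 : (0.6931471803 : ℝ) < Real.log 2 := Real.log_two_gt_d9
  have e32 : Real.logb 2 (32 : ℝ) = 5 := by
    rw [show (32 : ℝ) = 2 ^ (5 : ℕ) by norm_num, Real.logb_pow, Real.logb_self_eq_one (by norm_num)]
    norm_num
  constructor
  · rw [← e32]
    exact Real.logb_le_logb_of_le (by norm_num) (by norm_num) hn'
  · have h4 : Real.log ((n : ℝ) / 32) ≤ (n : ℝ) / 32 - 1 :=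
      Real.log_le_sub_one_of_pos (by positivity)
    have h5 : Real.logb 2 (n : ℝ) = 5 + Real.logb 2 ((n : ℝ) / 32) := by
      rw [Real.logb_div (by positivity) (by norm_num), e32]
      ring
    have h6 : Real.logb 2 ((n : ℝ) / 32) ≤ 5 * ((n : ℝ) / 32 - 1) := by
      rw [Real.logb, div_le_iff₀ h2]
      have h7 : (0 : ℝ) ≤ (n : ℝ) / 32 - 1 := by linarith
      nlinarith
    linarith

theorem card_pairs : (pairs n).card = n := by
  unfold pairs
  rw [card_map, card_univ, Fintype.card_fin]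

theorem real_glue {D : Option (Fin n) → Type} (hn : 32 ≤ n) (hw : 1 ≤ w)
    {Ω : Type} [Fintype Ω] (μ : Ω → ℝ) (hμ : IsProb μ) (f : (∀ i, D i) → Bool)
    (hask : ∀ i : Fin n, Pool.Agent.Y638.RF.Asks (Fin n × Fin n) (n ^ 2) 0 (fun _ => True) f
      (some i)) (s : ℕ) (C : Ω → Circuit (Option (Fin n)) D w (2 ^ c))
    (hs : ∀ ω, (C ω).circ.cost (pairs n) ≤ s)
    (hF : ApproximatesOn μ (fun ω => (C ω).accepts) (fun _ => True) f) :
    (n : ℝ) ^ 3 ≤ 60000 * (n + w * c) * s := by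
  classical
  have hw' : (1 : ℝ) ≤ w := by exact_mod_cast hw
  have hc' : (0 : ℝ) ≤ c := Nat.cast_nonneg c
  have hs0 : (0 : ℝ) ≤ s := Nat.cast_nonneg s
  have hn' : (32 : ℝ) ≤ n := by exact_mod_cast hn
  have hwc : (0 : ℝ) ≤ w * c := by positivity
  by_cases hsn : n ^ 3 ≤ s
  · have h1 : (n : ℝ) ^ 3 ≤ s := by exact_mod_cast hsn
    have h2 : (1 : ℝ) ≤ 60000 * (n + w * c) := by linarith
    nlinarith
  obtain ⟨hl0, hl⟩ := logb_n hn
  have h6 : n ^ 6 = n ^ 3 * n ^ 3 := by ring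
  have h3 : 32 * (n * n) ≤ n ^ 3 := by
    calc 32 * (n * n) ≤ n * (n * n) := Nat.mul_le_mul_right _ hn
      _ = n ^ 3 := by ring
  have hn2 : 1 ≤ n * n := Nat.mul_pos (by omega) (by omega)
  have h36 : n ^ 3 ≤ n ^ 6 := Nat.pow_le_pow_right (by omega) (by norm_num)
  have h := real_bound (T := Fin n × Fin n) μ hμ C (fun _ => True) f hF (pairs n) s hs
    Nat.one_le_two_pow hw (n ^ 2) (n ^ 6) (by rw [pow_two]; omega) (by omega) 0 (by norm_num)
    (by
      intro a ha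
      unfold pairs at ha
      rw [mem_map] at ha
      obtain ⟨i, -, rfl⟩ := ha
      exact hask i) ((n : ℝ) ^ 2) (by nlinarith)
      (le_of_eq Pool.Agent.TH457.Ary.OuMv.card_T.symm)
  rw [card_pairs, Real.sqrt_sq (by linarith)] at h
  push_cast at h
  rw [Real.logb_pow, Pool.Agent.TH457.Ary.OuMv.logb_two_pow'] at h
  push_cast at h
  have h4 : 9 * (n : ℝ) + (2 + 10 * (6 * Real.logb 2 n) + 2 * (w - 1) * c) ≤
      20 * (n + w * c) := by nlinarith
  have h5 : 3000 * (9 * (n : ℝ) + (2 + 10 * (6 * Real.logb 2 n) + 2 * (w - 1) * c)) * s ≤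
      3000 * (20 * (n + w * c)) * s :=
    mul_le_mul_of_nonneg_right (mul_le_mul_of_nonneg_left h4 (by norm_num)) hs0
  calc (n : ℝ) ^ 3 = n * n ^ 2 := by ring
    _ ≤ _ := h
    _ ≤ _ := h5
    _ = _ := by ring

theorem int_glue {D : Option (Fin n) → Type} (hn : 32 ≤ n) (hw : 1 ≤ w)
    {Ω : Type} [Fintype Ω] (μ : Ω → ℝ) (hμ : IsProb μ) (f : (∀ i, D i) → Bool)
    (hask : ∀ i : Fin n, Pool.Agent.Y638.WF.Asks (Fin n × Fin n) 0 (fun _ => True) f
      (some i)) (s : ℕ) (C : Ω → Circuit (Option (Fin n)) D w (2 ^ c))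
    (hs : ∀ ω, (C ω).circ.cost (pairs n) ≤ s)
    (hC : ∀ ω x, (C ω).circ.All (IsInt (2 ^ b)) x)
    (hF : ApproximatesOn μ (fun ω => (C ω).accepts) (fun _ => True) f) :
    (n : ℝ) ^ 3 ≤ 30000 * (b + Real.logb 2 n + w * c) * s := by
  classical
  have hw' : (1 : ℝ) ≤ w := by exact_mod_cast hw
  have hc' : (0 : ℝ) ≤ c := Nat.cast_nonneg c
  have hb' : (0 : ℝ) ≤ b := Nat.cast_nonneg b
  have hs0 : (0 : ℝ) ≤ s := Nat.cast_nonneg s
  have hn' : (32 : ℝ) ≤ n := by exact_mod_cast hn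
  have hwc : (0 : ℝ) ≤ w * c := by positivity
  obtain ⟨hl0, hl⟩ := logb_n hn
  by_cases hsn : n ^ 3 ≤ s
  · have h1 : (n : ℝ) ^ 3 ≤ s := by exact_mod_cast hsn
    have h2 : (1 : ℝ) ≤ 30000 * (b + Real.logb 2 n + w * c) := by linarith
    nlinarith
  have h := int_bound (T := Fin n × Fin n) μ hμ C (fun _ => True) f hF (pairs n) s hs
    Nat.one_le_two_pow hw (2 ^ b) Nat.one_le_two_pow (fun ω x _ => hC ω x) 0 (by norm_num)
    (by
      intro a ha
      unfold pairs at ha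
      rw [mem_map] at ha
      obtain ⟨i, -, rfl⟩ := ha
      exact hask i) ((n : ℝ) ^ 2) (by nlinarith)
      (le_of_eq Pool.Agent.TH457.Ary.OuMv.card_T.symm)
  rw [card_pairs] at h
  have h1 := Pool.Agent.N599.OM.WF.logb_small (v := b)
  have h2 : Real.logb 2 ((s : ℝ) + 1) ≤ 3 * Real.logb 2 n := by
    have h3 : ((s : ℝ) + 1) ≤ (n : ℝ) ^ 3 := by exact_mod_cast (by omega : s + 1 ≤ n ^ 3)
    refine (Real.logb_le_logb_of_le (by norm_num : (1 : ℝ) < 2) (by positivity) h3).trans ?_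
    rw [Real.logb_pow]
    norm_num
  have h3 : Real.logb 2 ((2 ^ c : ℕ) : ℝ) = c := by
    push_cast
    exact Pool.Agent.TH457.Ary.OuMv.logb_two_pow' c
  rw [h3] at h
  have h4 : 8 * Real.logb 2 (2 * ((2 ^ b : ℕ) : ℝ) + 1) + 2 * Real.logb 2 ((s : ℝ) + 1) +
      2 * ((w : ℝ) - 1) * c ≤ 10 * (b + Real.logb 2 n + w * c) := by nlinarith
  have h5 : 3000 * (8 * Real.logb 2 (2 * ((2 ^ b : ℕ) : ℝ) + 1) + 2 * Real.logb 2 ((s : ℝ) + 1) +
      2 * ((w : ℝ) - 1) * c) * s ≤ 3000 * (10 * (b + Real.logb 2 n + w * c)) * s :=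
    mul_le_mul_of_nonneg_right (mul_le_mul_of_nonneg_left h4 (by norm_num)) hs0
  calc (n : ℝ) ^ 3 = n * n ^ 2 := by ring
    _ ≤ _ := h
    _ ≤ _ := h5
    _ = _ := by ring

end Pool.Agent.Run7.h324.SR.OM
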