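import Pool.Agent.Run7.h324.SR.General
import Pool.Agent.Run7.h324.SR.OuMvLower

set_option autoImplicit false

/-! # Boolean products `u_iᵀ M v_i` and circuits with shared numbers -/

namespace Pool.Agent.Run7.h324.SR.OM

open Finset Pool.Agent.TH697.Row
open Pool.Agent.TH697.Form (IsProb)
open Pool.Agent.N452.TF.Xor (pairs)
open Pool.Agent.TH697.Form.OuMv (Item ouMv)

variable {n c w b q a l : ℕ}

theorem real_lower (hn : 32 ≤ n) (hw : 1 ≤ w) {Ω : Type} [Fintype Ω] (μ : Ω → ℝ)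
    (hμ : IsProb μ) (s : ℕ) (C : Ω → Circuit (Option (Fin n)) (Item n n) w (2 ^ c))
    (hs : ∀ ω, (C ω).circ.cost (pairs n) ≤ s)
    (hF : ApproximatesOn μ (fun ω => (C ω).accepts) (fun _ => True) (ouMv n n)) :
    (n : ℝ) ^ 3 ≤ 60000 * (n + w * c) * s :=
  real_glue hn hw μ hμ (ouMv n n) (fun i => Pool.Agent.Y638.RF.OuMv.asks i) s C hs hF

theorem int_lower (hn : 32 ≤ n) (hw : 1 ≤ w) {Ω : Type} [Fintype Ω] (μ : Ω → ℝ)
    (hμ : IsProb μ) (s : ℕ) (C : Ω → Circuit (Option (Fin n)) (Item n n) w (2 ^ c))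
    (hs : ∀ ω, (C ω).circ.cost (pairs n) ≤ s)
    (hC : ∀ ω x, (C ω).circ.All (IsInt (2 ^ b)) x)
    (hF : ApproximatesOn μ (fun ω => (C ω).accepts) (fun _ => True) (ouMv n n)) :
    (n : ℝ) ^ 3 ≤ 30000 * (b + Real.logb 2 n + w * c) * s :=
  int_glue hn hw μ hμ (ouMv n n) (fun i => Pool.Agent.N599.OM.WF.asks i) s C hs hC hF

theorem upper (ha : 1 ≤ a) (hl1 : 1 ≤ l) (hl : n < 2 ^ l) :
    ∃ C : Circuit (Option (Fin n)) (Item n n) w q,
      C.circ.cost (pairs n) ≤ n * (n / a + 1) * (n + 5 * (a * l)) + n ∧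
      (∀ x, C.circ.All (IsInt (2 ^ (a * l))) x) ∧ ∀ x, C.accepts x = ouMv n n x := by
  classical
  obtain ⟨C, h1, h2, h3⟩ := circuit_general (w := w) (q := q) (D := Item n n)
    (fun _ d => d.1) (fun _ d => d.2) (fun Y => Y) (fun _ => true) (fun c => decide (0 < c))
    ha hl1 hl
  refine ⟨C, h1, h2, fun x => ?_⟩
  rw [h3]
  unfold ouMv
  rw [decide_eq_decide]
  simp only [decide_eq_true_eq, true_and]
  constructor
  · rintro ⟨i, hi⟩
    rw [card_pos] at hi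
    obtain ⟨⟨k, e⟩, hp⟩ := hi
    rw [mem_filter] at hp
    obtain ⟨-, h4, h5⟩ := hp
    have h6 : cnt (x (some i)).1 (x none) k ≠ 0 := by
      intro h6
      simp only [h6] at h5
      simp at h5
    rw [cnt_eq, card_ne_zero] at h6
    obtain ⟨j, hj⟩ := h6
    rw [mem_filter] at hj
    exact ⟨i, j, k, hj.2.1, hj.2.2, h4⟩
  · rintro ⟨i, j, k, h4, h5, h6⟩
    refine ⟨i, ?_⟩
    rw [card_pos]
    have h7 : cnt (x (some i)).1 (x none) k ≠ 0 := by
      rw [cnt_eq, card_ne_zero]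
      exact ⟨j, mem_filter.2 ⟨mem_univ _, h4, h5⟩⟩
    obtain ⟨e, he⟩ := Nat.exists_testBit_of_ne_zero h7
    have hel : e < l := by
      by_contra hel
      push Not at hel
      have h8 : cnt (x (some i)).1 (x none) k < 2 ^ e :=
        lt_of_lt_of_le (lt_of_le_of_lt (cnt_le _ _ _) hl) (Nat.pow_le_pow_right (by norm_num) hel)
      rw [Nat.testBit_lt_two_pow h8] at he
      exact absurd he (by simp)
    exact ⟨(k, ⟨e, hel⟩), mem_filter.2 ⟨mem_univ _, h6, he⟩⟩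

end Pool.Agent.Run7.h324.SR.OM
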