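import Pool.Agent.Run7.h324.SR.Upper

set_option autoImplicit false

/-! # Numbers which are packed in a large number -/

namespace Pool.Agent.Run7.h324.SR

open Finset

/-- the number with the digits `c κ` to the base `2 ^ l` -/
def pack (l a : ℕ) (c : ℕ → ℕ) : ℕ := ∑ κ ∈ range a, c κ * 2 ^ (κ * l)

theorem pack_lt {l a : ℕ} {c : ℕ → ℕ} (hc : ∀ κ, c κ < 2 ^ l) : pack l a c < 2 ^ (a * l) := by
  unfold pack
  induction a with
  | zero => simp
  | succ a ih =>
    rw [sum_range_succ, Nat.succ_mul, pow_add]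
    have h1 := hc a
    have h2 : c a * 2 ^ (a * l) + 2 ^ (a * l) ≤ 2 ^ (a * l) * 2 ^ l := by
      calc c a * 2 ^ (a * l) + 2 ^ (a * l) = (c a + 1) * 2 ^ (a * l) := by ring
        _ ≤ 2 ^ l * 2 ^ (a * l) := Nat.mul_le_mul_right _ (by omega)
        _ = _ := by ring
    omega

theorem testBit_pack {l a : ℕ} {c : ℕ → ℕ} (hc : ∀ κ, c κ < 2 ^ l) {κ e : ℕ} (hκ : κ < a)
    (he : e < l) : (pack l a c).testBit (κ * l + e) = (c κ).testBit e := by
  induction a with
  | zero => omega
  | succ a ih =>
    have h1 : pack l (a + 1) c = 2 ^ (a * l) * c a + pack l a c := by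
      unfold pack
      rw [sum_range_succ]
      ring
    rw [h1, Nat.testBit_two_pow_mul_add _ (pack_lt hc)]
    rcases Nat.lt_succ_iff_lt_or_eq.1 hκ with h2 | rfl
    · have h3 : κ * l + l ≤ a * l := by
        calc κ * l + l = (κ + 1) * l := by ring
          _ ≤ a * l := Nat.mul_le_mul_right _ h2
      rw [if_pos (by omega)]
      exact ih h2
    · rw [if_neg (by omega)]
      congr 1
      omega

theorem pack_sum {n l a : ℕ} (u : Fin n → Prop) [DecidablePred u] (c : Fin n → ℕ → ℕ) :
    ∑ j, (if u j then pack l a (c j) else 0) = pack l a (fun κ => ∑ j, if u j then c j κ else 0) := by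
  unfold pack
  simp only [sum_mul]
  rw [sum_comm]
  refine sum_congr rfl fun j _ => ?_
  split_ifs
  · rfl
  · simp

end Pool.Agent.Run7.h324.SR
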