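import Pool.Agent.Run7.h324.SR.Circ

set_option autoImplicit false

/-! # Families of functions which are chosen among polynomials by sign tests of polynomials
(the method of Goldberg and Jerrum) -/

namespace Pool.Agent.Run7.h324.SR

open Finset MvPolynomial
open Pool.Agent.Y638.RF (Word Un)

/-- The functions `G z` are given by at most `W` polynomial decision procedures with `p` real
parameters: there are less than `2 ^ t` test polynomials of degree at most `d`; their signs select one
of at most `2 ^ t` systems of polynomials of degree at most `d`. -/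
def Cover {Z Y X : Type} (G : Z → Y → X → ℝ) (p t d W : ℕ) : Prop :=
  ∃ (κ σ J B : Type) (_ : Fintype κ) (_ : Fintype σ) (_ : Fintype J) (_ : Fintype B)
    (Q : κ → J → Y → MvPolynomial σ ℝ) (sel : κ → Y → (J → Bool) → B)
    (out : κ → B → Y → X → MvPolynomial σ ℝ),
    Fintype.card κ ≤ W ∧ Fintype.card σ ≤ p ∧ Fintype.card J + 1 ≤ 2 ^ t ∧
    Fintype.card B ≤ 2 ^ t ∧ (∀ k a v, (Q k a v).totalDegree ≤ d) ∧
    (∀ k b v x, (out k b v x).totalDegree ≤ d) ∧
    ∀ z, ∃ (k : κ) (θ : σ → ℝ), ∀ v x,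
      G z v x = eval θ (out k (sel k v (fun a => decide (0 < eval θ (Q k a v)))) v x)

namespace Cover

variable {Z Y X X' : Type} {G : Z → Y → X → ℝ} {p t d W p' t' d' W' : ℕ}

theorem mono (h : Cover G p t d W) (hp : p ≤ p') (ht : t ≤ t') (hd : d ≤ d') (hW : W ≤ W') :
    Cover G p' t' d' W' := by
  obtain ⟨κ, σ, J, B, _, _, _, _, Q, sel, out, h1, h2, h3, h4, h5, h6, h7⟩ := h
  have h8 : 2 ^ t ≤ 2 ^ t' := Nat.pow_le_pow_right (by norm_num) ht
  exact ⟨κ, σ, J, B, _, _, _, _, Q, sel, out, h1.trans hW, h2.trans hp, h3.trans h8, h4.trans h8,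
    fun k a v => (h5 k a v).trans hd, fun k b v x => (h6 k b v x).trans hd, h7⟩

theorem reindex (h : Cover G p t d W) (f : X' → X) :
    Cover (fun z v x => G z v (f x)) p t d W := by
  obtain ⟨κ, σ, J, B, _, _, _, _, Q, sel, out, h1, h2, h3, h4, h5, h6, h7⟩ := h
  refine ⟨κ, σ, J, B, _, _, _, _, Q, sel, fun k b v x => out k b v (f x), h1, h2, h3, h4, h5,
    fun k b v x => h6 k b v (f x), fun z => ?_⟩
  obtain ⟨k, θ, h⟩ := h7 z
  exact ⟨k, θ, fun v x => h v (f x)⟩

theorem init (G : Z → Y → Fin 0 → ℝ) : Cover G 0 0 1 1 :=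
  ⟨Unit, Empty, Empty, Unit, inferInstance, inferInstance, inferInstance, inferInstance, fun _ a _ => a.elim, fun _ _ _ => (),
    fun _ _ _ x => x.elim0, by simp, by simp, by simp, by simp, fun _ a _ => a.elim,
    fun _ _ _ x => x.elim0, fun _ => ⟨(), fun a => a.elim, fun _ x => x.elim0⟩⟩

theorem leaf (h : Cover G p t d W) (κ' : Type) [Fintype κ'] (f : κ' → Y → ℝ) (k' : Z → κ') :
    Cover (ext G (fun z v => f (k' z) v)) p t d (W * Fintype.card κ') := by
  obtain ⟨κ, σ, J, B, _, _, _, _, Q, sel, out, h1, h2, h3, h4, h5, h6, h7⟩ := h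
  refine ⟨κ × κ', σ, J, B, inferInstance, _, _, _, fun k => Q k.1, fun k => sel k.1,
    fun k b v x => x.elim (C (f k.2 v)) (out k.1 b v), ?_, h2, h3, h4, fun k => h5 k.1, ?_,
    fun z => ?_⟩
  · rw [Fintype.card_prod]
    exact Nat.mul_le_mul_right _ h1
  · rintro k b v (_ | x)
    · simp
    · exact h6 k.1 b v x
  · obtain ⟨k, θ, h⟩ := h7 z
    refine ⟨(k, k' z), θ, ?_⟩
    rintro v (_ | x)
    · simp [ext]
    · exact h v x

theorem zcol (h : Cover G p t d W) : Cover (ext G (fun _ _ => 0)) p t d W := by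
  have := h.leaf Unit (fun _ _ => (0 : ℝ)) (fun _ => ())
  simpa using this

theorem valc (h : Cover G p t d W) (x0 : X) : Cover (ext G (fun z v => G z v x0)) p t d W := by
  have h1 := h.reindex (X' := Option X) (fun x => x.elim x0 id)
  convert h1 using 1
  funext z v x
  cases x <;> rfl

theorem addc (h : Cover G p t d W) (x1 x2 : X) :
    Cover (ext G (fun z v => G z v x1 + G z v x2)) p t d W := by
  obtain ⟨κ, σ, J, B, _, _, _, _, Q, sel, out, h1, h2, h3, h4, h5, h6, h7⟩ := h
  refine ⟨κ, σ, J, B, _, _, _, _, Q, sel, fun k b v x =>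
    x.elim (out k b v x1 + out k b v x2) (out k b v), h1, h2, h3, h4, h5, ?_, fun z => ?_⟩
  · rintro k b v (_ | x)
    · exact (totalDegree_add _ _).trans (max_le (h6 k b v x1) (h6 k b v x2))
    · exact h6 k b v x
  · obtain ⟨k, θ, h⟩ := h7 z
    refine ⟨k, θ, ?_⟩
    rintro v (_ | x)
    · simp [ext, h v x1, h v x2]
    · exact h v x

theorem mulc (h : Cover G p t d W) (x1 x2 : X) :
    Cover (ext G (fun z v => G z v x1 * G z v x2)) p t (2 * d) W := by
  obtain ⟨κ, σ, J, B, _, _, _, _, Q, sel, out, h1, h2, h3, h4, h5, h6, h7⟩ := h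
  refine ⟨κ, σ, J, B, _, _, _, _, Q, sel, fun k b v x =>
    x.elim (out k b v x1 * out k b v x2) (out k b v), h1, h2, h3, h4,
    fun k a v => (h5 k a v).trans (by omega), ?_, fun z => ?_⟩
  · rintro k b v (_ | x)
    · refine (totalDegree_mul _ _).trans ?_
      have a1 := h6 k b v x1
      have a2 := h6 k b v x2
      omega
    · exact (h6 k b v x).trans (by omega)
  · obtain ⟨k, θ, h⟩ := h7 z
    refine ⟨k, θ, ?_⟩
    rintro v (_ | x)
    · simp [ext, h v x1, h v x2]
    · exact h v x

open Classical in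
theorem symc (h : Cover G p t d W) (A : Type) [Fintype A] (e : A → X) (H : ℕ → ℝ) (s : ℕ)
    (off : Z → ℕ) (cnt : Z → Y → ℕ) (hoff : ∀ z, off z ≤ s)
    (hcnt : ∀ z v, cnt z v = (univ.filter (fun a => 0 < G z v (e a))).card) :
    Cover (ext G (fun z v => H (off z + cnt z v))) p (t + Fintype.card A) d (W * (s + 1)) := by
  obtain ⟨κ, σ, J, B, _, _, _, _, Q, sel, out, h1, h2, h3, h4, h5, h6, h7⟩ := h
  have hA : Fintype.card A + 1 ≤ 2 ^ Fintype.card A := Nat.lt_two_pow_self
  have hpos : 1 ≤ 2 ^ t := Nat.one_le_two_pow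
  refine ⟨κ × Fin (s + 1), σ, J ⊕ (B × A), B × (A → Bool), inferInstance, _, inferInstance,
    inferInstance, fun k => Sum.elim (fun a v => Q k.1 a v) (fun b v => out k.1 b.1 v (e b.2)),
    fun k v τ => (sel k.1 v (fun a => τ (Sum.inl a)),
      fun a => τ (Sum.inr (sel k.1 v (fun a => τ (Sum.inl a)), a))),
    fun k b v x => x.elim (C (H (k.2.val + (univ.filter (fun a => b.2 a = true)).card)))
      (out k.1 b.1 v), ?_, h2, ?_, ?_, ?_, ?_, fun z => ?_⟩
  · rw [Fintype.card_prod, Fintype.card_fin]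
    exact Nat.mul_le_mul_right _ h1
  · rw [Fintype.card_sum, Fintype.card_prod, pow_add]
    calc Fintype.card J + Fintype.card B * Fintype.card A + 1
        ≤ 2 ^ t + 2 ^ t * Fintype.card A := by
          have := Nat.mul_le_mul_right (Fintype.card A) h4
          omega
      _ = 2 ^ t * (Fintype.card A + 1) := by ring
      _ ≤ 2 ^ t * 2 ^ Fintype.card A := Nat.mul_le_mul_left _ hA
  · rw [Fintype.card_prod, Fintype.card_fun, Fintype.card_bool, pow_add]
    exact Nat.mul_le_mul_right _ h4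
  · rintro k (a | b) v
    · exact h5 k.1 a v
    · exact h6 k.1 b.1 v (e b.2)
  · rintro k b v (_ | x)
    · simp
    · exact h6 k.1 b.1 v x
  · obtain ⟨k, θ, h⟩ := h7 z
    refine ⟨(k, ⟨off z, by have := hoff z; omega⟩), θ, ?_⟩
    rintro v (_ | x)
    · simp only [ext, Option.elim_none, Sum.elim_inl, Sum.elim_inr, eval_C]
      congr 2
      rw [hcnt]
      congr 1
      ext a
      rw [mem_filter, mem_filter, h v (e a)]
      simp only [mem_univ, true_and, decide_eq_true_eq]
      exact Iff.of_eq (by congr)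
    · exact h v x

theorem un (h : Cover G p t d W) (x0 : X) (U : Z → ℝ → ℝ) (hU : ∀ z, Un (U z)) :
    Cover (ext G (fun z v => U z (G z v x0))) (p + 4) (t + 1) (d + 1) (W * 2) := by
  obtain ⟨κ, σ, J, B, _, _, _, _, Q, sel, out, h1, h2, h3, h4, h5, h6, h7⟩ := h
  have er : ∀ (P : MvPolynomial σ ℝ) (θ : σ → ℝ) (η : Fin 4 → ℝ),
      eval (Sum.elim θ η) (rename Sum.inl P) = eval θ P := by
    intro P θ η
    rw [eval_rename]
    rfl
  have dr : ∀ P : MvPolynomial σ ℝ, P.totalDegree ≤ d →
      (rename (Sum.inl : σ → σ ⊕ Fin 4) P).totalDegree ≤ d := fun P hP =>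
    (totalDegree_rename_le _ _).trans hP
  have da : ∀ (P : MvPolynomial σ ℝ) (i j : Fin 4), P.totalDegree ≤ d →
      ((MvPolynomial.X (Sum.inr i) * rename Sum.inl P + MvPolynomial.X (Sum.inr j) : MvPolynomial (σ ⊕ Fin 4) ℝ)).totalDegree
        ≤ d + 1 := by
    intro P i j hP
    refine (totalDegree_add _ _).trans (max_le ?_ ?_)
    · refine (totalDegree_mul _ _).trans ?_
      rw [totalDegree_X, add_comm]
      exact Nat.add_le_add_right (dr P hP) 1
    · rw [totalDegree_X]
      omega
  refine ⟨κ × Bool, σ ⊕ Fin 4, J ⊕ B, B × Bool, inferInstance, inferInstance, inferInstance,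
    inferInstance, fun k => Sum.elim (fun a v => rename Sum.inl (Q k.1 a v))
      (fun b v => MvPolynomial.X (Sum.inr 2) * rename Sum.inl (out k.1 b v x0) + MvPolynomial.X (Sum.inr 3)),
    fun k v τ => (sel k.1 v (fun a => τ (Sum.inl a)),
      τ (Sum.inr (sel k.1 v (fun a => τ (Sum.inl a))))),
    fun k b v x => x.elim (if k.2 = true then
        MvPolynomial.X (Sum.inr 0) * C (if b.2 = true then 1 else 0) + MvPolynomial.X (Sum.inr 1)
        else MvPolynomial.X (Sum.inr 0) * rename Sum.inl (out k.1 b.1 v x0) + MvPolynomial.X (Sum.inr 1))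
      (fun x => rename Sum.inl (out k.1 b.1 v x)), ?_, ?_, ?_, ?_, ?_, ?_, fun z => ?_⟩
  · rw [Fintype.card_prod, Fintype.card_bool]
    exact Nat.mul_le_mul_right _ h1
  · rw [Fintype.card_sum, Fintype.card_fin]
    omega
  · rw [Fintype.card_sum, pow_succ]
    omega
  · rw [Fintype.card_prod, Fintype.card_bool, pow_succ]
    exact Nat.mul_le_mul_right _ h4
  · rintro k (a | b) v
    · exact (dr _ (h5 k.1 a v)).trans (by omega)
    · exact da _ _ _ (h6 k.1 b v x0)
  · rintro k b v (_ | x)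
    · simp only [Option.elim_none]
      split_ifs
      · refine (totalDegree_add _ _).trans (max_le ?_ ?_)
        · refine (totalDegree_mul _ _).trans ?_
          rw [totalDegree_X, totalDegree_C]
          omega
        · rw [totalDegree_X]
          omega
      · refine (totalDegree_add _ _).trans (max_le ?_ ?_)
        · refine (totalDegree_mul _ _).trans ?_
          rw [totalDegree_X, totalDegree_C]
          omega
        · rw [totalDegree_X]
          omega
      · exact da _ _ _ (h6 k.1 b.1 v x0)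
    · exact (dr _ (h6 k.1 b.1 v x)).trans (by omega)
  · obtain ⟨k, θ, h⟩ := h7 z
    rcases hU z with ⟨a, b, hu⟩ | ⟨a, b, c, e, hu⟩
    · refine ⟨(k, false), Sum.elim θ ![a, b, 0, 0], ?_⟩
      rintro v (_ | x)
      · simp only [ext, Option.elim_none, Sum.elim_inl, er, Bool.false_eq_true, if_false, map_add,
          map_mul, eval_X, Sum.elim_inr, ← h v, hu]
        simp
      · simp only [ext, Option.elim_some, Sum.elim_inl, er, ← h v]
    · refine ⟨(k, true), Sum.elim θ ![a, b, c, e], ?_⟩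
      rintro v (_ | x)
      · simp only [ext, Option.elim_none, Sum.elim_inl, er, if_true, map_add,
          map_mul, eval_X, Sum.elim_inr, eval_C, ← h v, hu]
        simp
      · simp only [ext, Option.elim_some, Sum.elim_inl, er, ← h v]

open Classical in
/-- few sign patterns -/
theorem bool [Fintype Y] (h : Cover G p t d W) (x0 : X) :
    ∃ S : Finset (Y → Bool), S.card ≤ W * (4 * (Fintype.card Y * 2 ^ (t + 1)) * d + 2) ^ p ∧
      ∀ z, (fun v => decide (0 < G z v x0)) ∈ S := by
  obtain ⟨κ, σ, J, B, _, _, _, _, Q, sel, out, h1, h2, h3, h4, h5, h6, h7⟩ := h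
  obtain ⟨P, hP⟩ : ∃ P : κ → Y × (J ⊕ B) → MvPolynomial σ ℝ, P = fun k v =>
    Sum.elim (fun a => Q k a v.1) (fun b => out k b v.1 x0) v.2 := ⟨_, rfl⟩
  have hPd : ∀ k v, (P k v).totalDegree ≤ d := by
    rintro k ⟨v, a | b⟩
    · rw [hP]
      exact h5 k a v
    · rw [hP]
      exact h6 k b v x0
  refine ⟨univ.biUnion (fun k : κ => (Set.toFinite (Set.range (fun θ : σ → ℝ =>
    fun v : Y × (J ⊕ B) => SignType.sign (eval θ (P k v))))).toFinset.image (fun τ => fun v =>
      decide (τ (v, Sum.inr (sel k v (fun a => decide (τ (v, Sum.inl a) = 1)))) = 1))), ?_, ?_⟩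
  · refine card_biUnion_le.trans ?_
    refine (sum_le_card_nsmul _ _ ((4 * (Fintype.card Y * 2 ^ (t + 1)) * d + 2) ^ p)
      fun k _ => ?_).trans ?_
    · refine card_image_le.trans ?_
      rw [← Set.ncard_eq_toFinset_card]
      refine (Pool.Agent.Helper448.Warren.ncard_sign_patterns_le (P k) d (hPd k)).trans ?_
      have e1 : Fintype.card (Y × (J ⊕ B)) ≤ Fintype.card Y * 2 ^ (t + 1) := by
        rw [Fintype.card_prod, Fintype.card_sum, pow_succ]
        apply Nat.mul_le_mul_left
        omega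
      refine (Nat.pow_le_pow_left (Nat.add_le_add_right (Nat.mul_le_mul_right _
        (Nat.mul_le_mul_left _ e1)) _) _).trans ?_
      exact Nat.pow_le_pow_right (by omega) h2
    · rw [smul_eq_mul, card_univ]
      exact Nat.mul_le_mul_right _ h1
  · intro z
    obtain ⟨k, θ, h⟩ := h7 z
    rw [mem_biUnion]
    refine ⟨k, mem_univ _, ?_⟩
    rw [mem_image]
    refine ⟨fun v => SignType.sign (eval θ (P k v)), ?_, ?_⟩
    · rw [Set.Finite.mem_toFinset]
      exact ⟨θ, rfl⟩
    · funext v
      rw [h v x0]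
      simp only [hP, Sum.elim_inl, Sum.elim_inr, sign_eq_one_iff]

end Cover

/-- The calculus for real numbers. -/
def realCalc (Z Y : Type) (s q' : ℕ) (hq' : 1 ≤ q') (Q : ℝ → Prop) (h0 : Q 0) (h1 : Q 1) :
    Calc Z Y s q' Q where
  C := fun X G n => Cover G (4 * n) (3 * n) (3 ^ n) ((2 * q' * (s + 1)) ^ n)
  zero := h0
  one := h1
  mono := fun X G n n' hn h => h.mono (by omega) (by omega) (Nat.pow_le_pow_right (by norm_num) hn)
    (Nat.pow_le_pow_right (by have : 0 < 2 * q' * (s + 1) := by positivity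
                              omega) hn)
  reindex := fun X X' f G n h => h.reindex f
  zcol := fun X G n h => h.zcol
  step := by
    intro X G n h g c hb _ U hU _
    have hB : 1 ≤ (2 * q' * (s + 1)) := by
      have : 0 < 2 * q' * (s + 1) := by positivity
      omega
    have h3 : 1 ≤ 3 ^ n := Nat.one_le_pow _ _ (by norm_num)
    have fin : ∀ (t' d' W' : ℕ), t' + 1 ≤ 3 * (n + c) → 1 ≤ c → d' + 1 ≤ 3 ^ (n + 1) →
        W' * 2 ≤ (2 * q' * (s + 1)) ^ (n + 1) → Cover (ext G g) (4 * n) t' d' W' →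
        Cover (ext G (fun z v => U z (g z v))) (4 * (n + c)) (3 * (n + c)) (3 ^ (n + c))
          ((2 * q' * (s + 1)) ^ (n + c)) := by
      intro t' d' W' ht hc hd hW hcov
      have h5 := (hcov.un none U hU).reindex (X' := Option X)
        (fun x => x.elim none (fun x => some (some x)))
      have h6 : Cover (ext G (fun z v => U z (g z v))) (4 * n + 4) (t' + 1) (d' + 1) (W' * 2) := by
        convert h5 using 1
        funext z v x
        cases x <;> rfl
      exact h6.mono (by omega) ht (hd.trans (Nat.pow_le_pow_right (by norm_num) (by omega)))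
        (hW.trans (Nat.pow_le_pow_right hB (by omega)))
    have hW1 : (2 * q' * (s + 1)) ^ n * q' * 2 ≤ (2 * q' * (s + 1)) ^ (n + 1) := by
      rw [pow_succ, mul_assoc]
      apply Nat.mul_le_mul_left
      nlinarith
    have hW2 : (2 * q' * (s + 1)) ^ n * 2 ≤ (2 * q' * (s + 1)) ^ (n + 1) := by
      rw [pow_succ]
      apply Nat.mul_le_mul_left
      nlinarith
    have hW3 : (2 * q' * (s + 1)) ^ n * (s + 1) * 2 ≤ (2 * q' * (s + 1)) ^ (n + 1) := by
      rw [pow_succ, mul_assoc]
      apply Nat.mul_le_mul_left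
      nlinarith
    have hd1 : 3 ^ n + 1 ≤ 3 ^ (n + 1) := by
      rw [pow_succ]
      omega
    have hd2 : 2 * 3 ^ n + 1 ≤ 3 ^ (n + 1) := by
      rw [pow_succ]
      omega
    cases hb with
    | leaf κ f k hκ =>
      refine fin (3 * n) (3 ^ n) ((2 * q' * (s + 1)) ^ n * q') (by omega) le_rfl hd1 hW1 ?_
      exact (Cover.leaf h κ f k).mono le_rfl le_rfl le_rfl (Nat.mul_le_mul_left _ hκ)
    | val x => exact fin (3 * n) (3 ^ n) _ (by omega) le_rfl hd1 hW2 (h.valc x)
    | add x x' => exact fin (3 * n) (3 ^ n) _ (by omega) le_rfl hd1 hW2 (h.addc x x')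
    | mul x x' => exact fin (3 * n) (2 * 3 ^ n) _ (by omega) le_rfl hd2 hW2 (h.mulc x x')
    | sym A e H off cnt hA hoff hcnt =>
      exact fin (3 * n + Fintype.card A) (3 ^ n) _ (by omega) (by omega) hd1 hW3
        (h.symc A e H s off cnt hoff hcnt)

end Pool.Agent.Run7.h324.SR
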