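import Pool.Agent.Run7.h324.SR.Calc
import Pool.Agent.N452.TF.Xor

set_option autoImplicit false

/-! # Products `u_iᵀ M v_i` by circuits with shared numbers: packed columns and the extraction of
binary digits -/

namespace Pool.Agent.Run7.h324.SR

open Finset

section sum

variable {ι : Type} {D : ι → Type} {w q m : ℕ}

/-- sums -/
def Fml.sum : (k : ℕ) → (Fin k → Fml ι D w q m) → Fml ι D w q m
  | 0, _ => .const 0
  | k + 1, F => .add (Fml.sum k (fun j => F j.castSucc)) (F (Fin.last k))

theorem Fml.eval_sum (x : ∀ i, D i) (r : Fin m → ℝ) : ∀ (k : ℕ) (F : Fin k → Fml ι D w q m),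
    (Fml.sum k F).eval x r = ∑ j, (F j).eval x r
  | 0, F => by simp [Fml.sum, Fml.eval]
  | k + 1, F => by
      rw [Fin.sum_univ_castSucc]
      simp only [Fml.sum, Fml.eval]
      rw [Fml.eval_sum x r k]

theorem Fml.cost_sum (I : Finset ι) (c : Fin m → ℕ) : ∀ (k : ℕ) (F : Fin k → Fml ι D w q m),
    (Fml.sum k F).cost I c = ∑ j, (F j).cost I c
  | 0, F => by simp [Fml.sum, Fml.cost]
  | k + 1, F => by
      rw [Fin.sum_univ_castSucc]
      simp only [Fml.sum, Fml.cost]
      rw [Fml.cost_sum I c k]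

theorem Fml.sees_sum (i : ι) (S : Fin m → Prop) : ∀ (k : ℕ) (F : Fin k → Fml ι D w q m),
    (Fml.sum k F).Sees i S → ∃ j, (F j).Sees i S
  | 0, F => by simp [Fml.sum, Fml.Sees]
  | k + 1, F => by
      simp only [Fml.sum, Fml.Sees]
      rintro (h | h)
      · obtain ⟨j, hj⟩ := Fml.sees_sum i S k _ h
        exact ⟨_, hj⟩
      · exact ⟨_, h⟩

theorem IsInt.nat {V a : ℕ} (h : a ≤ V) : IsInt V (a : ℝ) := ⟨a, by simp, by
  rw [Nat.abs_cast]
  exact_mod_cast h⟩

theorem Fml.all_sum (V : ℕ) (x : ∀ i, D i) (r : Fin m → ℝ) : ∀ (k : ℕ)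
    (F : Fin k → Fml ι D w q m) (a : Fin k → ℕ), (∀ j, (F j).eval x r = a j) → ∑ j, a j ≤ V →
    (∀ j, (F j).All (IsInt V) x r) → (Fml.sum k F).All (IsInt V) x r
  | 0, F, a, _, _, _ => by
      simp only [Fml.sum, Fml.All, Fml.eval]
      exact ⟨0, by simp, by simp⟩
  | k + 1, F, a, ha, hV, hF => by
      rw [Fin.sum_univ_castSucc] at hV
      refine ⟨Fml.all_sum V x r k _ (fun j => a j.castSucc) (fun j => ha _) (by omega)
        (fun j => hF _), hF _, ?_⟩
      simp only [Fml.eval]
      rw [Fml.eval_sum, ha]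
      simp only [ha]
      have h1 : ((∑ j : Fin k, (a j.castSucc : ℝ)) + a (Fin.last k)) =
          ((∑ j : Fin k, a j.castSucc + a (Fin.last k) : ℕ) : ℝ) := by push_cast; ring
      rw [h1]
      exact IsInt.nat hV

/-- the test `2 ^ e ≤ y` -/
def Fml.bit (e : ℕ) (F : Fml ι D w q m) : Fml ι D w q m :=
  .add (.const 1) (.mul (.const (-1)) (.pos (.add (.const (2 ^ e)) (.mul (.const (-1)) F))))

theorem Fml.eval_bit (e : ℕ) (F : Fml ι D w q m) (x : ∀ i, D i) (r : Fin m → ℝ) (y : ℕ)
    (h : F.eval x r = y) : (F.bit e).eval x r = if 2 ^ e ≤ y then 1 else 0 := by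
  simp only [Fml.bit, Fml.eval, h]
  have h1 : (0 : ℝ) < 2 ^ e + -1 * y ↔ ¬ 2 ^ e ≤ y := by
    rw [not_le]
    have : ((y : ℝ) < 2 ^ e) ↔ y < 2 ^ e := by exact_mod_cast Iff.rfl
    rw [← this]
    constructor <;> intro h <;> linarith
  by_cases h2 : 2 ^ e ≤ y
  · rw [if_neg (by rw [h1]; exact not_not.2 h2), if_pos h2]
    norm_num
  · rw [if_pos (h1.2 h2), if_neg h2]
    norm_num

theorem Fml.all_bit (L e : ℕ) (he : e ≤ L) (F : Fml ι D w q m) (x : ∀ i, D i) (r : Fin m → ℝ)
    (y : ℕ) (h : F.eval x r = y) (hy : y ≤ 2 ^ L) (hF : F.All (IsInt (2 ^ L)) x r) :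
    (F.bit e).All (IsInt (2 ^ L)) x r := by
  have hb := F.eval_bit e x r y h
  have h2e : 2 ^ e ≤ 2 ^ L := Nat.pow_le_pow_right (by norm_num) he
  have h1L : 1 ≤ 2 ^ L := Nat.one_le_two_pow
  have one : IsInt (2 ^ L) 1 := ⟨1, by simp, by simpa using (by exact_mod_cast h1L)⟩
  have mone : IsInt (2 ^ L) (-1) := ⟨-1, by simp, by
    simpa using (by exact_mod_cast h1L)⟩
  refine ⟨one, ⟨mone, ⟨?_, ⟨mone, hF, ?_⟩, ?_⟩, ?_⟩, ?_⟩
  · have := IsInt.nat h2e
    push_cast at this
    exact this
  · simp only [Fml.eval, h]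
    refine ⟨-(y : ℤ), by push_cast; ring, ?_⟩
    rw [abs_neg, Nat.abs_cast]
    exact_mod_cast hy
  · simp only [Fml.eval, h]
    refine ⟨(2 : ℤ) ^ e - y, by push_cast; ring, ?_⟩
    have e1 : (2 : ℤ) ^ e ≤ 2 ^ L := by exact_mod_cast h2e
    have e2 : (y : ℤ) ≤ 2 ^ L := by exact_mod_cast hy
    have e3 : (0 : ℤ) ≤ 2 ^ e := by positivity
    push_cast
    rw [abs_le]
    constructor <;> omega
  · simp only [Fml.eval]
    split_ifs
    · simpa using mone
    · exact ⟨0, by simp, by simp⟩
  · rw [Fml.bit] at hb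
    rw [hb]
    split_ifs
    · exact one
    · exact ⟨0, by simp, by simp⟩

end sum

section step

theorem mod_step (ρ e : ℕ) : (if 2 ^ e ≤ ρ % 2 ^ (e + 1) then 1 else 0) * 2 ^ e + ρ % 2 ^ e =
    ρ % 2 ^ (e + 1) := by
  have h1 : ρ % 2 ^ (e + 1) % 2 ^ e = ρ % 2 ^ e := by
    rw [pow_succ]
    exact Nat.mod_mul_right_mod _ _ _
  have h2 : ρ % 2 ^ (e + 1) < 2 ^ (e + 1) := Nat.mod_lt _ (by positivity)
  obtain ⟨y, hy⟩ : ∃ y, y = ρ % 2 ^ (e + 1) := ⟨_, rfl⟩
  rw [← hy] at h1 h2 ⊢
  rw [← h1]
  rw [pow_succ] at h2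
  split_ifs with h
  · have h3 : y % 2 ^ e = y - 2 ^ e := by
      rw [Nat.mod_eq_sub_mod h, Nat.mod_eq_of_lt (by omega)]
    rw [h3]
    omega
  · rw [Nat.mod_eq_of_lt (by omega)]
    omega

theorem testBit_iff (ρ e : ℕ) : 2 ^ e ≤ ρ % 2 ^ (e + 1) ↔ ρ.testBit e = true := by
  have h1 := mod_step ρ e
  have h2 : ρ % 2 ^ (e + 1) / 2 ^ e = ρ / 2 ^ e % 2 := by
    rw [pow_succ, Nat.mod_mul_right_div_self]
  rw [Nat.testBit_eq_decide_div_mod_eq, decide_eq_true_iff, ← h2]
  have h3 : ρ % 2 ^ (e + 1) < 2 ^ (e + 1) := Nat.mod_lt _ (by positivity)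
  have h4 : 0 < 2 ^ e := by positivity
  rw [pow_succ] at h3 ⊢
  constructor
  · intro h
    apply Nat.div_eq_of_lt_le
    · omega
    · omega
  · intro h
    by_contra h5
    push Not at h5
    rw [Nat.div_eq_of_lt h5] at h
    omega

end step

variable {n nb L w q : ℕ} {D : Option (Fin n) → Type}

/-- the packed column sums -/
def rho (u : (i : Fin n) → Fin n → D (some i) → Bool) (r : Fin n → Fin nb → D none → ℕ)
    (x : ∀ i, D i) (p : Fin n × Fin nb) : ℕ :=
  ∑ j, if u p.1 j (x (some p.1)) = true then r j p.2 (x none) else 0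

/-- The number `rho % 2 ^ (L - s)` is computed, and depends on one pair only. -/
def Rep (L : ℕ) (u : (i : Fin n) → Fin n → D (some i) → Bool) (r : Fin n → Fin nb → D none → ℕ)
    {m : ℕ} (C : Circ (Option (Fin n)) D w q m) (p : Fin n × Fin nb) (s : ℕ) : Prop :=
  ∃ k : Fin m, (∀ x, C.val x k = ((rho u r x p % 2 ^ (L - s) : ℕ) : ℝ)) ∧
    ∀ i : Fin n, C.Dep (some i) k → i = p.1

open Pool.Agent.N452.TF.Xor (pairs)

theorem price_le {m : ℕ} {C : Circ (Option (Fin n)) D w q m}
    {k : Fin m} {a : Fin n} (h : ∀ i : Fin n, C.Dep (some i) k → i = a) :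
    C.price (pairs n) k ≤ 1 := by
  classical
  unfold Circ.price
  refine (card_le_card (t := {some a}) ?_).trans (by simp)
  intro i hi
  rw [mem_filter, pairs, mem_map] at hi
  obtain ⟨⟨i', -, rfl⟩, h2⟩ := hi
  rw [mem_singleton]
  exact congrArg some (h i' h2)

theorem Rep.castSucc {u : (i : Fin n) → Fin n → D (some i) → Bool}
    {r : Fin n → Fin nb → D none → ℕ} {m : ℕ} {C : Circ (Option (Fin n)) D w q m}
    {p : Fin n × Fin nb} {s : ℕ} (h : Rep L u r C p s) (F : Fml (Option (Fin n)) D w q m) :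
    Rep L u r (C.snoc F) p s := by
  obtain ⟨k, h1, h2⟩ := h
  refine ⟨k.castSucc, fun x => ?_, fun i hi => h2 i ?_⟩
  · simp only [Circ.val, Fin.snoc_castSucc]
    exact h1 x
  · simpa only [Circ.Dep, Fin.snoc_castSucc] using hi

theorem none_notMem : (none : Option (Fin n)) ∉ pairs n := by
  simp [pairs]

/-- one more number -/
theorem Rep.step (u : (i : Fin n) → Fin n → D (some i) → Bool)
    (r : Fin n → Fin nb → D none → ℕ) (hr : ∀ x p, rho u r x p < 2 ^ L)
    (hr' : ∀ j β M, r j β M ≤ 2 ^ L) {m : ℕ}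
    (C : Circ (Option (Fin n)) D w q m) (hC : ∀ x, C.All (IsInt (2 ^ L)) x)
    (p : Fin n × Fin nb) (s : ℕ) (hs : s < L) (h : s ≠ 0 → Rep L u r C p (s - 1)) :
    ∃ F : Fml (Option (Fin n)) D w q m, Rep L u r (C.snoc F) p s ∧
      (∀ x, (C.snoc F).All (IsInt (2 ^ L)) x) ∧
      F.cost (pairs n) (C.price (pairs n)) ≤ if s = 0 then n else 2 := by
  classical
  have h1L : 1 ≤ 2 ^ L := Nat.one_le_two_pow
  by_cases hs0 : s = 0
  · subst hs0
    refine ⟨Fml.sum n (fun j => .mul (.item (some p.1) (fun d => if u p.1 j d = true then 1 else 0))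
      (.item none (fun M => (r j p.2 M : ℝ)))), ⟨Fin.last _, fun x => ?_, fun i hi => ?_⟩, ?_, ?_⟩
    · simp only [Circ.val, Fin.snoc_last, Fml.eval_sum, Fml.eval]
      rw [Nat.sub_zero, Nat.mod_eq_of_lt (hr x p)]
      unfold rho
      push_cast
      refine sum_congr rfl fun j _ => ?_
      split_ifs <;> simp
    · simp only [Circ.Dep, Fin.snoc_last] at hi
      obtain ⟨j, hj⟩ := Fml.sees_sum _ _ _ _ hi
      rcases hj with hj | hj
      · exact (Option.some.inj hj).symm
      · cases hj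
    · intro x
      refine ⟨hC x, ?_⟩
      refine Fml.all_sum (2 ^ L) x _ n _ (fun j =>
        if u p.1 j (x (some p.1)) = true then r j p.2 (x none) else 0) (fun j => ?_)
        (hr x p).le (fun j => ⟨?_, ?_, ?_⟩)
      · simp only [Fml.eval]
        split_ifs <;> simp
      · simp only [Fml.All, Fml.eval]
        split_ifs
        · exact ⟨1, by simp, by simpa using (by exact_mod_cast h1L)⟩
        · exact ⟨0, by simp, by simp⟩
      · simp only [Fml.All, Fml.eval]
        exact IsInt.nat (hr' _ _ _)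
      · simp only [Fml.eval]
        split_ifs
        · rw [one_mul]
          exact IsInt.nat (hr' _ _ _)
        · rw [zero_mul]
          exact ⟨0, by simp, by simp⟩
    · rw [if_pos rfl, Fml.cost_sum]
      simp only [Fml.cost, none_notMem, if_false, add_zero]
      refine (sum_le_card_nsmul _ _ 1 fun j _ => by split_ifs <;> simp).trans (by simp)
  · obtain ⟨k, h1, h2⟩ := h hs0
    have hLs : L - (s - 1) = (L - s) + 1 := by omega
    rw [hLs] at h1
    obtain ⟨e, he⟩ : ∃ e, e = L - s := ⟨_, rfl⟩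
    rw [← he] at h1
    have heL : e ≤ L := by omega
    have hy : ∀ x, rho u r x p % 2 ^ (e + 1) ≤ 2 ^ L := fun x =>
      (Nat.mod_le _ _).trans (hr x p).le
    have hy0 : ∀ x, rho u r x p % 2 ^ e ≤ 2 ^ L := fun x =>
      (Nat.mod_le _ _).trans (hr x p).le
    have hval : ∀ x, (Fml.add (.val k) (.mul (.const (-(2 ^ e))) (Fml.bit e (.val k))) :
        Fml (Option (Fin n)) D w q m).eval x (C.val x) = ((rho u r x p % 2 ^ e : ℕ) : ℝ) := by
      intro x
      simp only [Fml.eval]
      rw [Fml.eval_bit e (.val k) x (C.val x) _ (h1 x), h1 x]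
      have h3 := mod_step (rho u r x p) e
      have h4 := congrArg (Nat.cast : ℕ → ℝ) h3
      push_cast at h4
      rw [← h4]
      split_ifs <;> ring
    refine ⟨.add (.val k) (.mul (.const (-(2 ^ e))) (Fml.bit e (.val k))),
      ⟨Fin.last _, fun x => ?_, fun i hi => ?_⟩, ?_, ?_⟩
    · simp only [Circ.val, Fin.snoc_last]
      rw [hval x, he]
    · simp only [Circ.Dep, Fin.snoc_last] at hi
      simp only [Fml.Sees, Fml.bit, false_or, or_self] at hi
      exact h2 i hi
    · intro x
      refine ⟨hC x, ?_, ⟨?_, ?_, ?_⟩, ?_⟩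
      · simp only [Fml.All, Fml.eval]
        rw [h1]
        exact IsInt.nat (hy x)
      · simp only [Fml.All, Fml.eval]
        refine ⟨-(2 ^ e : ℤ), by push_cast; ring, ?_⟩
        rw [abs_neg, abs_of_nonneg (by positivity)]
        have : 2 ^ e ≤ 2 ^ L := Nat.pow_le_pow_right (by norm_num) heL
        exact_mod_cast this
      · refine Fml.all_bit L e heL (.val k) x _ _ (h1 x) (hy x) ?_
        simp only [Fml.All, Fml.eval]
        rw [h1]
        exact IsInt.nat (hy x)
      · simp only [Fml.eval]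
        rw [Fml.eval_bit e (.val k) x (C.val x) _ (h1 x)]
        split_ifs
        · refine ⟨-(2 ^ e : ℤ), by push_cast; ring, ?_⟩
          rw [abs_neg, abs_of_nonneg (by positivity)]
          have : 2 ^ e ≤ 2 ^ L := Nat.pow_le_pow_right (by norm_num) heL
          exact_mod_cast this
        · exact ⟨0, by simp, by simp⟩
      · rw [hval x]
        exact IsInt.nat (hy0 x)
    · rw [if_neg hs0]
      have := price_le h2
      simp only [Fml.cost, Fml.bit]
      omega

/-- all numbers of one level -/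
theorem Rep.level (u : (i : Fin n) → Fin n → D (some i) → Bool)
    (r : Fin n → Fin nb → D none → ℕ) (hr : ∀ x p, rho u r x p < 2 ^ L)
    (hr' : ∀ j β M, r j β M ≤ 2 ^ L) {m : ℕ}
    (C : Circ (Option (Fin n)) D w q m) (hC : ∀ x, C.All (IsInt (2 ^ L)) x)
    (s : ℕ) (hs : s < L) (h : ∀ p, ∀ s' < s, Rep L u r C p s') (T : Finset (Fin n × Fin nb)) :
    ∃ (m' : ℕ) (C' : Circ (Option (Fin n)) D w q m'), (∀ p, ∀ s' < s, Rep L u r C' p s') ∧
      (∀ p ∈ T, Rep L u r C' p s) ∧ (∀ x, C'.All (IsInt (2 ^ L)) x) ∧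
      C'.cost (pairs n) ≤ C.cost (pairs n) + T.card * if s = 0 then n else 2 := by
  classical
  induction T using Finset.induction_on with
  | empty => exact ⟨m, C, h, by simp, hC, by simp⟩
  | insert p T hp ih =>
    obtain ⟨m', C', h1, h2, h3, h4⟩ := ih
    obtain ⟨F, h5, h6, h7⟩ := Rep.step u r hr hr' C' h3 p s hs (fun hs0 => h1 p _ (by omega))
    refine ⟨m' + 1, C'.snoc F, fun p s' hs' => (h1 p s' hs').castSucc F, ?_, h6, ?_⟩
    · intro p' hp'
      rw [mem_insert] at hp'
      rcases hp' with rfl | hp'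
      · exact h5
      · exact (h2 p' hp').castSucc F
    · simp only [Circ.cost]
      rw [card_insert_of_notMem hp, add_mul, one_mul]
      omega

/-- all numbers -/
theorem Rep.all (u : (i : Fin n) → Fin n → D (some i) → Bool)
    (r : Fin n → Fin nb → D none → ℕ) (hr : ∀ x p, rho u r x p < 2 ^ L)
    (hr' : ∀ j β M, r j β M ≤ 2 ^ L) (s : ℕ) (hs : s ≤ L) :
    ∃ (m : ℕ) (C : Circ (Option (Fin n)) D w q m), (∀ p, ∀ s' < s, Rep L u r C p s') ∧
      (∀ x, C.All (IsInt (2 ^ L)) x) ∧
      C.cost (pairs n) ≤ n * nb * (if s = 0 then 0 else n + 2 * s) := by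
  induction s with
  | zero => exact ⟨0, .nil, fun _ _ h => absurd h (Nat.not_lt_zero _), fun _ => trivial,
      by simp [Circ.cost]⟩
  | succ s ih =>
    obtain ⟨m, C, h1, h2, h3⟩ := ih (by omega)
    obtain ⟨m', C', h4, h5, h6, h7⟩ := Rep.level u r hr hr' C h2 s (by omega) h1 univ
    refine ⟨m', C', ?_, h6, ?_⟩
    · intro p s' hs'
      rcases Nat.lt_succ_iff_lt_or_eq.1 hs' with hs'' | rfl
      · exact h4 p s' hs''
      · exact h5 p (mem_univ _)
    · rw [card_univ, Fintype.card_prod, Fintype.card_fin, Fintype.card_fin] at h7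
      by_cases hs0 : s = 0
      · subst hs0
        rw [if_pos rfl] at h7 h3
        rw [mul_zero] at h3
        rw [if_neg (by omega)]
        have : n * nb * (n + 2 * (0 + 1)) = n * nb * n + n * nb * 2 := by ring
        omega
      · rw [if_neg hs0] at h7 h3
        rw [if_neg (by omega)]
        refine h7.trans ?_
        have : n * nb * (n + 2 * (s + 1)) = n * nb * (n + 2 * s) + n * nb * 2 := by ring
        omega

/-- The circuit: the binary digits of the packed column sums which are selected by `g` are counted. -/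
theorem exists_circuit (u : (i : Fin n) → Fin n → D (some i) → Bool)
    (r : Fin n → Fin nb → D none → ℕ) (hr : ∀ x p, rho u r x p < 2 ^ L)
    (hr' : ∀ j β M, r j β M ≤ 2 ^ L) (hL : 1 ≤ L)
    (g : (i : Fin n) → Fin nb → Fin L → D (some i) → Bool) (h : ℕ → Bool) :
    ∃ C : Circuit (Option (Fin n)) D w q,
      C.circ.cost (pairs n) ≤ n * nb * (n + 5 * L) + n ∧
      (∀ x, C.circ.All (IsInt (2 ^ L)) x) ∧
      ∀ x, C.accepts x = decide (∃ i, h (univ.filter (fun a : Fin nb × Fin L =>
        g i a.1 a.2 (x (some i)) = true ∧ (rho u r x (i, a.1)).testBit a.2 = true)).card = true) := by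
  classical
  have h1L : 1 ≤ 2 ^ L := Nat.one_le_two_pow
  obtain ⟨m, C, h1, h2, h3⟩ := Rep.all (w := w) (q := q) u r hr hr' L le_rfl
  rw [if_neg (by omega)] at h3
  have h4 : ∀ (i : Fin n) (a : Fin nb × Fin L), ∃ k : Fin m,
      (∀ x, C.val x k = ((rho u r x (i, a.1) % 2 ^ (a.2.val + 1) : ℕ) : ℝ)) ∧
      ∀ i' : Fin n, C.Dep (some i') k → i' = i := by
    intro i a
    obtain ⟨k, h5, h6⟩ := h1 (i, a.1) (L - 1 - a.2.val) (by omega)
    refine ⟨k, fun x => ?_, h6⟩
    rw [h5 x]
    have : L - (L - 1 - a.2.val) = a.2.val + 1 := by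
      have := a.2.2
      omega
    rw [this]
  choose k hk hk' using h4
  obtain ⟨G, hG⟩ : ∃ G : Fin n → Fin (nb * L) → Fml (Option (Fin n)) D w q m, G = fun i j =>
      .mul (.item (some i) (fun d => if g i (finProdFinEquiv.symm j).1 (finProdFinEquiv.symm j).2 d =
        true then 1 else 0)) (Fml.bit (finProdFinEquiv.symm j).2
          (.val (k i (finProdFinEquiv.symm j)))) := ⟨_, rfl⟩
  have hGe : ∀ i j x, (G i j).eval x (C.val x) =
      if (g i (finProdFinEquiv.symm j).1 (finProdFinEquiv.symm j).2 (x (some i)) = true ∧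
        (rho u r x (i, (finProdFinEquiv.symm j).1)).testBit (finProdFinEquiv.symm j).2 = true)
        then 1 else 0 := by
    intro i j x
    rw [hG]
    simp only [Fml.eval]
    rw [Fml.eval_bit _ (.val _) x (C.val x) _ (hk i _ x)]
    simp only [testBit_iff]
    split_ifs <;> simp_all
  obtain ⟨H, hH⟩ : ∃ H : Fin n → Fml (Option (Fin n)) D w q m, H = fun i =>
      .sym (nb * L) (fun c => if h c = true then 1 else 0) (G i) := ⟨_, rfl⟩
  have hHe : ∀ i x, (H i).eval x (C.val x) =
      if h (univ.filter (fun a : Fin nb × Fin L =>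
        g i a.1 a.2 (x (some i)) = true ∧ (rho u r x (i, a.1)).testBit a.2 = true)).card = true
        then 1 else 0 := by
    intro i x
    rw [hH]
    simp only [Fml.eval, hGe]
    have e1 : (univ.filter (fun j : Fin (nb * L) => (0 : ℝ) < if
        (g i (finProdFinEquiv.symm j).1 (finProdFinEquiv.symm j).2 (x (some i)) = true ∧
        (rho u r x (i, (finProdFinEquiv.symm j).1)).testBit (finProdFinEquiv.symm j).2 = true)
        then 1 else 0)).card = (univ.filter (fun a : Fin nb × Fin L =>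
        g i a.1 a.2 (x (some i)) = true ∧
          (rho u r x (i, a.1)).testBit a.2 = true)).card := by
      rw [← card_map finProdFinEquiv.symm.toEmbedding]
      congr 1
      ext a
      simp only [mem_map, mem_filter, mem_univ, true_and, Equiv.coe_toEmbedding]
      constructor
      · rintro ⟨j, h5, rfl⟩
        split_ifs at h5 with h6
        · exact h6
        · exact absurd h5 (lt_irrefl _)
      · intro h5
        refine ⟨finProdFinEquiv a, ?_, by simp⟩
        rw [Equiv.symm_apply_apply, if_pos h5]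
        norm_num
    rw [e1]
  refine ⟨⟨m, C.snoc (.sym n (fun c => if 0 < c then 1 else 0) H)⟩, ?_, ?_, ?_⟩
  · simp only [Circ.cost, Fml.cost]
    have h5 : ∀ i j, (G i j).cost (pairs n) (C.price (pairs n)) ≤ 2 := by
      intro i j
      rw [hG]
      have := price_le (hk' i (finProdFinEquiv.symm j))
      simp only [Fml.cost, Fml.bit]
      split_ifs <;> omega
    have h6 : ∀ i, (H i).cost (pairs n) (C.price (pairs n)) ≤ nb * L * 3 := by
      intro i
      rw [hH]
      simp only [Fml.cost]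
      have h7 := sum_le_card_nsmul univ (fun j => (G i j).cost (pairs n) (C.price (pairs n))) 2
        fun j _ => h5 i j
      rw [card_univ, Fintype.card_fin, smul_eq_mul] at h7
      omega
    have h7 := sum_le_card_nsmul univ (fun i => (H i).cost (pairs n) (C.price (pairs n)))
      (nb * L * 3) fun i _ => h6 i
    rw [card_univ, Fintype.card_fin, smul_eq_mul] at h7
    have h8 : n * nb * (n + 5 * L) = n * nb * (n + 2 * L) + n * (nb * L * 3) := by ring
    omega
  · intro x
    have one : IsInt (2 ^ L) 1 := ⟨1, by simp, by simpa using (by exact_mod_cast h1L)⟩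
    have zero : IsInt (2 ^ L) 0 := ⟨0, by simp, by simp⟩
    refine ⟨h2 x, fun i => ?_, ?_⟩
    · rw [hH]
      refine ⟨fun j => ?_, ?_⟩
      · have h9 := hGe i j x
        rw [hG] at h9 ⊢
        refine ⟨?_, ?_, ?_⟩
        · simp only [Fml.All, Fml.eval]
          split_ifs
          · exact one
          · exact zero
        · have hle : rho u r x (i, (finProdFinEquiv.symm j).1) %
              2 ^ ((finProdFinEquiv.symm j).2.val + 1) ≤ 2 ^ L :=
            (Nat.mod_le _ _).trans (hr x _).le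
          refine Fml.all_bit L _ (finProdFinEquiv.symm j).2.2.le (.val _) x _ _ (hk i _ x) hle ?_
          simp only [Fml.All, Fml.eval]
          rw [hk]
          exact IsInt.nat hle
        · simp only at h9
          rw [h9]
          split_ifs
          · exact one
          · exact zero
      · simp only [Fml.eval]
        split_ifs
        · exact one
        · exact zero
    · simp only [Fml.eval]
      split_ifs
      · exact one
      · exact zero
  · intro x
    unfold Circuit.accepts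
    simp only [Circ.val, Fin.snoc_last, Fml.eval, hHe]
    rw [decide_eq_decide]
    constructor
    · intro h5
      split_ifs at h5 with h6
      · rw [card_pos] at h6
        obtain ⟨i, hi⟩ := h6
        rw [mem_filter] at hi
        refine ⟨i, ?_⟩
        by_contra h7
        rw [if_neg h7] at hi
        exact lt_irrefl _ hi.2
      · exact absurd h5 (lt_irrefl _)
    · rintro ⟨i, hi⟩
      rw [if_pos]
      · norm_num
      · rw [card_pos]
        refine ⟨i, ?_⟩
        rw [mem_filter, if_pos hi]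
        exact ⟨mem_univ _, by norm_num⟩

end Pool.Agent.Run7.h324.SR
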