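import Pool.Agent.Run7.h324.SR.General
import Pool.Agent.Run7.h324.SR.OuMvLower
import Pool.Agent.R617.WFX.Xor

set_option autoImplicit false

/-! # Products `u_iᵀ M v_i` over `ZMod 2` and circuits with shared numbers -/

namespace Pool.Agent.Run7.h324.SR.Xor

open Finset Pool.Agent.TH697.Row
open Pool.Agent.TH697.Form (IsProb)
open Pool.Agent.N452.TF.Xor (pairs)
open Pool.Agent.Y638.RF.Xor (Item product)
open Pool.Agent.Run7.h324.SR

variable {n c w b q a l : ℕ}

theorem real_lower (hn : 32 ≤ n) (hw : 1 ≤ w) {Ω : Type} [Fintype Ω] (μ : Ω → ℝ)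
    (hμ : IsProb μ) (s : ℕ) (C : Ω → Circuit (Option (Fin n)) (Item n) w (2 ^ c))
    (hs : ∀ ω, (C ω).circ.cost (pairs n) ≤ s)
    (hF : ApproximatesOn μ (fun ω => (C ω).accepts) (fun _ => True) (product n)) :
    (n : ℝ) ^ 3 ≤ 60000 * (n + w * c) * s :=
  OM.real_glue hn hw μ hμ (product n) (fun i => Pool.Agent.Y638.RF.Xor.asks i) s C hs hF

theorem int_lower (hn : 32 ≤ n) (hw : 1 ≤ w) {Ω : Type} [Fintype Ω] (μ : Ω → ℝ)
    (hμ : IsProb μ) (s : ℕ) (C : Ω → Circuit (Option (Fin n)) (Item n) w (2 ^ c))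
    (hs : ∀ ω, (C ω).circ.cost (pairs n) ≤ s)
    (hC : ∀ ω x, (C ω).circ.All (IsInt (2 ^ b)) x)
    (hF : ApproximatesOn μ (fun ω => (C ω).accepts) (fun _ => True) (product n)) :
    (n : ℝ) ^ 3 ≤ 30000 * (b + Real.logb 2 n + w * c) * s :=
  OM.int_glue hn hw μ hμ (product n) (fun i => Pool.Agent.R617.WFX.asks i) s C hs hC hF

theorem zmod_two (y : ZMod 2) : y = if y = 1 then 1 else 0 := by
  revert y
  decide

theorem upper (ha : 1 ≤ a) (hl1 : 1 ≤ l) (hl : n < 2 ^ l) :
    ∃ C : Circuit (Option (Fin n)) (Item n) w q,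
      C.circ.cost (pairs n) ≤ n * (n / a + 1) * (n + 5 * (a * l)) + n ∧
      (∀ x, C.circ.All (IsInt (2 ^ (a * l))) x) ∧ ∀ x, C.accepts x = product n x := by
  classical
  obtain ⟨C, h1, h2, h3⟩ := circuit_general (w := w) (q := q) (D := Item n)
    (fun _ d j => decide (d.1 j = 1)) (fun _ d k => decide (d.2 k = 1))
    (fun Y j k => decide (Y j k = 1)) (fun e => decide (e = 0)) (fun c => decide (c % 2 = 1))
    ha hl1 hl
  refine ⟨C, h1, h2, fun x => ?_⟩
  rw [h3]
  unfold product
  rw [decide_eq_decide]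
  simp only [decide_eq_true_eq]
  have key : ∀ i : Fin n, ((univ.filter (fun p : Fin n × Fin l => (x (some i)).2 p.1 = 1 ∧
      p.2.val = 0 ∧ (cnt (fun j => decide ((x (some i)).1 j = 1))
        (fun j k => decide (x none j k = 1)) p.1).testBit p.2 = true)).card : ZMod 2) =
      ∑ j : Fin n, ∑ k : Fin n, (x (some i)).1 j * (x none) j k * (x (some i)).2 k := by
    intro i
    have e1 : (univ.filter (fun p : Fin n × Fin l => (x (some i)).2 p.1 = 1 ∧
      p.2.val = 0 ∧ (cnt (fun j => decide ((x (some i)).1 j = 1))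
        (fun j k => decide (x none j k = 1)) p.1).testBit p.2 = true)).card =
        (univ.filter (fun k : Fin n => (x (some i)).2 k = 1 ∧
          cnt (fun j => decide ((x (some i)).1 j = 1))
        (fun j k => decide (x none j k = 1)) k % 2 = 1)).card := by
      refine card_bij (fun p _ => p.1) ?_ ?_ ?_
      · intro p hp
        rw [mem_filter] at hp ⊢
        obtain ⟨-, h4, h5, h6⟩ := hp
        rw [h5, Nat.testBit_zero, decide_eq_true_iff] at h6
        exact ⟨mem_univ _, h4, h6⟩
      · rintro ⟨k, e⟩ hp ⟨k', e'⟩ hp' heq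
        rw [mem_filter] at hp hp'
        simp only at heq
        have : e.val = e'.val := by rw [hp.2.2.1, hp'.2.2.1]
        rw [Prod.mk.injEq]
        exact ⟨heq, Fin.ext this⟩
      · intro k hk
        rw [mem_filter] at hk
        refine ⟨(k, ⟨0, hl1⟩), ?_, rfl⟩
        rw [mem_filter]
        refine ⟨mem_univ _, hk.2.1, rfl, ?_⟩
        rw [Nat.testBit_zero, decide_eq_true_iff]
        exact hk.2.2
    rw [e1, sum_comm, card_filter]
    push_cast
    refine sum_congr rfl fun k _ => ?_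
    have e2 : ∑ j : Fin n, (x (some i)).1 j * (x none) j k * (x (some i)).2 k =
        (cnt (fun j => decide ((x (some i)).1 j = 1)) (fun j k => decide (x none j k = 1)) k : ℕ) *
          (x (some i)).2 k := by
      rw [cnt_eq, card_filter]
      push_cast
      rw [sum_mul]
      refine sum_congr rfl fun j _ => ?_
      congr 1
      simp only [decide_eq_true_eq]
      rcases eq_or_ne ((x (some i)).1 j) 1 with h4 | h4
      · rw [h4, one_mul]
        conv_lhs => rw [zmod_two (x none j k)]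
        simp
      · have h5 : (x (some i)).1 j = 0 := by
          rw [zmod_two ((x (some i)).1 j), if_neg h4]
        rw [h5]
        simp
    rw [e2]
    rcases eq_or_ne ((x (some i)).2 k) 1 with h4 | h4
    · rw [h4]
      simp only [true_and, mul_one]
      rcases Nat.mod_two_eq_zero_or_one (cnt (fun j => decide ((x (some i)).1 j = 1))
        (fun j k => decide (x none j k = 1)) k) with h5 | h5
      · rw [if_neg (by omega), (ZMod.natCast_eq_zero_iff _ 2).2 (Nat.dvd_of_mod_eq_zero h5)]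
      · rw [if_pos h5, (ZMod.natCast_eq_one_iff_odd.2 (Nat.odd_iff.2 h5))]
    · have h5 : (x (some i)).2 k = 0 := by
        rw [zmod_two ((x (some i)).2 k), if_neg h4]
      rw [h5]
      simp
  constructor
  · rintro ⟨i, hi⟩
    refine ⟨i, ?_⟩
    rw [← key]
    exact ZMod.natCast_eq_one_iff_odd.2 (Nat.odd_iff.2 hi)
  · rintro ⟨i, hi⟩
    refine ⟨i, ?_⟩
    rw [← key] at hi
    exact Nat.odd_iff.1 (ZMod.natCast_eq_one_iff_odd.1 hi)

end Pool.Agent.Run7.h324.SR.Xor
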